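import Mathlib

/-!
# Feynman checkers: amplitude and the order parameter sum

Time is `t = n + 1`, with `n` a natural number, so `t` runs over all integers `t ≥ 1`.
A checker path from `(0, 0)` with `t` steps is a function `s : Fin (n + 1) → Bool`, where `true`
is the step `(1, 1)` and `false` the step `(-1, 1)`.
-/

set_option autoImplicit false

namespace Q261.FK

/-- The number of turns of a path: two consecutive steps are orthogonal exactly when they are
different. -/
def turns {n : ℕ} (s : Fin (n + 1) → Bool) : ℕ :=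
  (Finset.univ.filter (fun i : Fin n => s i.castSucc ≠ s i.succ)).card

/-- The paths whose first step goes to `(1, 1)` and whose endpoint is `(x, n + 1)`. -/
def paths (n : ℕ) (x : ℤ) : Finset (Fin (n + 1) → Bool) :=
  Finset.univ.filter
    (fun s : Fin (n + 1) → Bool => s 0 = true ∧ ∑ i, (if s i then (1 : ℤ) else -1) = x)

/-- The amplitude `a(x, t)` at time `t = n + 1`. -/
noncomputable def amp (n : ℕ) (x : ℤ) : ℂ :=
  ((2 : ℝ) ^ ((1 - ((n : ℝ) + 1)) / 2) : ℝ) * Complex.I *
    ∑ s ∈ paths n x, (-Complex.I) ^ turns s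

/-- The sum `S_v(t)` at time `t = n + 1`. -/
noncomputable def order (v : ℝ) (n : ℕ) : ℝ :=
  ∑ x ∈ (Finset.Icc (0 : ℤ) ⌊v * ((n : ℝ) + 1)⌋).filter (fun x => x ≡ (n : ℤ) + 1 [ZMOD 2]),
    2 / ((n : ℝ) + 1) * ‖((amp n x).im : ℂ) / amp n x‖ ^ 2

end Q261.FK
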