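import Mathlib

/-!
# Windows of velocities and Riemann sums
-/

set_option autoImplicit false

namespace Q261.FK

open Filter Topology Set

/-- velocity at time `n + 1` after `m` left steps -/
noncomputable def vel (n m : ℕ) : ℝ := 1 - 2 * (m : ℝ) / ((n : ℝ) + 1)

/-- threshold index -/
noncomputable def ct (v : ℝ) (n : ℕ) : ℕ := ⌈(1 - v) * ((n : ℝ) + 1) / 2⌉₊

/-- window of indices -/
noncomputable def win (a b : ℝ) (n : ℕ) : Finset ℕ := Finset.Ico (ct b n) (ct a n)

theorem vel_succ (n m : ℕ) : vel n (m + 1) = vel n m - 2 / ((n : ℝ) + 1) := by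
  unfold vel
  push_cast
  ring

theorem ct_le_iff {v : ℝ} {n m : ℕ} : ct v n ≤ m ↔ vel n m ≤ v := by
  unfold ct vel
  have hT : (0 : ℝ) < (n : ℝ) + 1 := by positivity
  rw [Nat.ceil_le]
  constructor
  · intro h
    have : (1 - v) ≤ 2 * (m : ℝ) / ((n : ℝ) + 1) := by
      rw [le_div_iff₀ hT]; linarith
    linarith
  · intro h
    have : (1 - v) ≤ 2 * (m : ℝ) / ((n : ℝ) + 1) := by linarith
    rw [le_div_iff₀ hT] at this
    linarith

theorem lt_ct_iff {v : ℝ} {n m : ℕ} : m < ct v n ↔ v < vel n m := by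
  rw [← not_le, ct_le_iff, not_le]

theorem mem_win {a b : ℝ} {n m : ℕ} : m ∈ win a b n ↔ a < vel n m ∧ vel n m ≤ b := by
  unfold win
  rw [Finset.mem_Ico, ct_le_iff, lt_ct_iff]
  tauto

theorem ct_anti {a b : ℝ} (h : a ≤ b) (n : ℕ) : ct b n ≤ ct a n := by
  rw [ct_le_iff]
  have : vel n (ct a n) ≤ a := ct_le_iff.1 le_rfl
  linarith

theorem vel_ct_bounds {v : ℝ} (hv : v ≤ 1) (n : ℕ) :
    v - 2 / ((n : ℝ) + 1) ≤ vel n (ct v n) ∧ vel n (ct v n) ≤ v := by
  refine ⟨?_, ct_le_iff.1 le_rfl⟩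
  rcases Nat.eq_zero_or_pos (ct v n) with h | h
  · rw [h]
    have h2 : (0 : ℝ) ≤ 2 / ((n : ℝ) + 1) := by positivity
    unfold vel
    simp
    linarith
  · obtain ⟨k, hk⟩ : ∃ k, ct v n = k + 1 := ⟨ct v n - 1, by omega⟩
    rw [hk, vel_succ]
    have : v < vel n k := lt_ct_iff.1 (by omega)
    linarith

theorem tendsto_inv_T : Tendsto (fun n : ℕ => 2 / ((n : ℝ) + 1)) atTop (𝓝 0) := by
  have h := tendsto_one_div_add_atTop_nhds_zero_nat (𝕜 := ℝ)
  have h2 := h.const_mul (2 : ℝ)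
  simp only [mul_zero] at h2
  refine h2.congr fun n => ?_
  ring

theorem tendsto_vel_ct {v : ℝ} (hv : v ≤ 1) :
    Tendsto (fun n => vel n (ct v n)) atTop (𝓝 v) := by
  have h1 : Tendsto (fun n : ℕ => v - 2 / ((n : ℝ) + 1)) atTop (𝓝 v) := by
    have := tendsto_inv_T.const_sub v
    simpa using this
  exact tendsto_of_tendsto_of_tendsto_of_le_of_le h1 tendsto_const_nhds
    (fun n => (vel_ct_bounds hv n).1) (fun n => (vel_ct_bounds hv n).2)

/-- average over a window -/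
noncomputable def avg (a b : ℝ) (f : ℕ → ℕ → ℂ) (n : ℕ) : ℂ :=
  (2 / ((n : ℝ) + 1) : ℝ) * ∑ m ∈ win a b n, f n m

/-- real average over a window -/
noncomputable def ravg (a b : ℝ) (f : ℕ → ℕ → ℝ) (n : ℕ) : ℝ :=
  (2 / ((n : ℝ) + 1)) * ∑ m ∈ win a b n, f n m

theorem card_win {a b : ℝ} (hab : a ≤ b) (hb : b ≤ 1) (n : ℕ) :
    (2 / ((n : ℝ) + 1)) * ((win a b n).card : ℝ) ≤ b - a + 2 / ((n : ℝ) + 1) := by
  have hT : (0 : ℝ) < (n : ℝ) + 1 := by positivity
  have e : ((win a b n).card : ℝ) = (ct a n : ℝ) - ct b n := by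
    unfold win
    rw [Nat.card_Ico, Nat.cast_sub (ct_anti hab n)]
  have h1 := vel_ct_bounds (hab.trans hb) n
  have h2 := vel_ct_bounds hb n
  have e2 : (2 / ((n : ℝ) + 1)) * ((win a b n).card : ℝ) =
      vel n (ct b n) - vel n (ct a n) := by
    rw [e]; unfold vel; ring
  rw [e2]
  linarith [h1.1, h2.2]

theorem ravg_add {a b : ℝ} (f g : ℕ → ℕ → ℝ) (n : ℕ) :
    ravg a b (fun n m => f n m + g n m) n = ravg a b f n + ravg a b g n := by
  unfold ravg
  rw [Finset.sum_add_distrib, mul_add]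

theorem ravg_split {a b c : ℝ} (hab : a ≤ b) (hbc : b ≤ c) (f : ℕ → ℕ → ℝ) (n : ℕ) :
    ravg a c f n = ravg a b f n + ravg b c f n := by
  unfold ravg win
  rw [← Finset.sum_Ico_consecutive _ (ct_anti hbc n) (ct_anti hab n)]
  ring

theorem ravg_mono {a b : ℝ} {f g : ℕ → ℕ → ℝ} {n : ℕ}
    (h : ∀ m, a < vel n m → vel n m ≤ b → f n m ≤ g n m) : ravg a b f n ≤ ravg a b g n := by
  unfold ravg
  apply mul_le_mul_of_nonneg_left _ (by positivity)
  apply Finset.sum_le_sum
  intro m hm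
  obtain ⟨h1, h2⟩ := mem_win.1 hm
  exact h m h1 h2

theorem ravg_const {a b : ℝ} (hab : a ≤ b) (hb : b ≤ 1) {c : ℝ} (hc : 0 ≤ c) (n : ℕ) :
    ravg a b (fun _ _ => c) n ≤ (b - a + 2 / ((n : ℝ) + 1)) * c := by
  unfold ravg
  rw [Finset.sum_const, nsmul_eq_mul, ← mul_assoc]
  exact mul_le_mul_of_nonneg_right (card_win hab hb n) hc

theorem ravg_nonneg {a b : ℝ} {f : ℕ → ℕ → ℝ} {n : ℕ}
    (h : ∀ m, a < vel n m → vel n m ≤ b → 0 ≤ f n m) : 0 ≤ ravg a b f n := by
  unfold ravg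
  apply mul_nonneg (by positivity)
  apply Finset.sum_nonneg
  intro m hm
  obtain ⟨h1, h2⟩ := mem_win.1 hm
  exact h m h1 h2

theorem norm_avg_le {a b : ℝ} (f : ℕ → ℕ → ℂ) (n : ℕ) :
    ‖avg a b f n‖ ≤ ravg a b (fun n m => ‖f n m‖) n := by
  unfold avg ravg
  rw [norm_mul, Complex.norm_real, Real.norm_of_nonneg (by positivity)]
  exact mul_le_mul_of_nonneg_left (norm_sum_le _ _) (by positivity)

theorem tel {G : Type*} [AddCommGroup G] (f : ℕ → G) {p q : ℕ} (h : p ≤ q) :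
    ∑ m ∈ Finset.Ico p q, (f m - f (m + 1)) = f p - f q := by
  induction q, h using Nat.le_induction with
  | base => simp
  | succ q hq ih =>
    rw [Finset.sum_Ico_succ_top hq, ih]
    abel

/-- Riemann sums over a window. -/
theorem riemann {a b : ℝ} (ha : -1 ≤ a) (hab : a ≤ b) (hb : b ≤ 1) (h H : ℝ → ℝ)
    (hh : Continuous h) (hH : ∀ x, HasDerivAt H (h x) x) :
    Tendsto (ravg a b (fun n m => h (vel n m))) atTop (𝓝 (H b - H a)) := by
  have hcont : Continuous H := by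
    rw [continuous_iff_continuousAt]
    exact fun x => (hH x).continuousAt
  have hlim : Tendsto (fun n => H (vel n (ct b n)) - H (vel n (ct a n))) atTop
      (𝓝 (H b - H a)) :=
    ((hcont.tendsto b).comp (tendsto_vel_ct hb)).sub
      ((hcont.tendsto a).comp (tendsto_vel_ct (hab.trans hb)))
  -- error
  have huc : UniformContinuousOn h (Icc (-4 : ℝ) 1) :=
    isCompact_Icc.uniformContinuousOn_of_continuous hh.continuousOn
  have herr : Tendsto (fun n => ravg a b (fun n m => h (vel n m)) n -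
      (H (vel n (ct b n)) - H (vel n (ct a n)))) atTop (𝓝 0) := by
    rw [Metric.tendsto_atTop]
    intro ε hε
    rw [Metric.uniformContinuousOn_iff] at huc
    obtain ⟨δ, hδ, hu⟩ := huc (ε / 8) (by positivity)
    have h1 := tendsto_inv_T
    rw [Metric.tendsto_atTop] at h1
    obtain ⟨N, hN⟩ := h1 (min δ 1) (by positivity)
    refine ⟨N, fun n hn => ?_⟩
    have hT : (0 : ℝ) < (n : ℝ) + 1 := by positivity
    have hd := hN n hn
    rw [Real.dist_eq, sub_zero, abs_of_pos (by positivity)] at hd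
    have hd1 : 2 / ((n : ℝ) + 1) < δ := lt_of_lt_of_le hd (min_le_left _ _)
    have hd2 : 2 / ((n : ℝ) + 1) < 1 := lt_of_lt_of_le hd (min_le_right _ _)
    rw [Real.dist_eq, sub_zero]
    rw [← tel (fun m => H (vel n m)) (ct_anti hab n)]
    unfold ravg
    rw [Finset.mul_sum]
    change |∑ m ∈ Finset.Ico (ct b n) (ct a n), _ - _| < ε
    rw [← Finset.sum_sub_distrib]
    have hbound : ∀ m ∈ Finset.Ico (ct b n) (ct a n),
        |2 / ((n : ℝ) + 1) * h (vel n m) - (H (vel n m) - H (vel n (m + 1)))| ≤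
          2 / ((n : ℝ) + 1) * (ε / 8) := by
      intro m hm
      obtain ⟨hm1, hm2⟩ := (mem_win (a := a) (b := b)).1 hm
      set s := vel n m with hs
      have hs' : vel n (m + 1) = s - 2 / ((n : ℝ) + 1) := vel_succ n m
      have hlt : vel n (m + 1) < s := by
        rw [hs']; have : 0 < 2 / ((n : ℝ) + 1) := by positivity
        linarith
      obtain ⟨c, hc, hc2⟩ := exists_hasDerivAt_eq_slope H h hlt hcont.continuousOn
        (fun x _ => hH x)
      have e1 : s - vel n (m + 1) = 2 / ((n : ℝ) + 1) := by rw [hs']; ring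
      rw [e1, eq_div_iff (by positivity)] at hc2
      rw [← hc2]
      have e2 : 2 / ((n : ℝ) + 1) * h s - h c * (2 / ((n : ℝ) + 1)) =
          2 / ((n : ℝ) + 1) * (h s - h c) := by ring
      rw [e2, abs_mul, abs_of_pos (by positivity : (0 : ℝ) < 2 / ((n : ℝ) + 1))]
      apply mul_le_mul_of_nonneg_left _ (by positivity)
      have hsI : s ∈ Icc (-4 : ℝ) 1 := ⟨by linarith, by linarith⟩
      have hcI : c ∈ Icc (-4 : ℝ) 1 := ⟨by linarith [hc.1], by linarith [hc.2]⟩
      have := hu s hsI c hcI (by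
        rw [Real.dist_eq, abs_of_pos (by linarith [hc.2])]
        linarith [hc.1])
      rw [Real.dist_eq] at this
      exact this.le
    calc |∑ m ∈ Finset.Ico (ct b n) (ct a n),
          (2 / ((n : ℝ) + 1) * h (vel n m) - (H (vel n m) - H (vel n (m + 1))))|
        ≤ ∑ m ∈ Finset.Ico (ct b n) (ct a n),
          |2 / ((n : ℝ) + 1) * h (vel n m) - (H (vel n m) - H (vel n (m + 1)))| :=
          Finset.abs_sum_le_sum_abs _ _
      _ ≤ ∑ m ∈ Finset.Ico (ct b n) (ct a n), 2 / ((n : ℝ) + 1) * (ε / 8) :=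
          Finset.sum_le_sum hbound
      _ = (2 / ((n : ℝ) + 1)) * ((win a b n).card : ℝ) * (ε / 8) := by
          rw [Finset.sum_const, nsmul_eq_mul]; unfold win; ring
      _ ≤ (b - a + 2 / ((n : ℝ) + 1)) * (ε / 8) :=
          mul_le_mul_of_nonneg_right (card_win hab hb n) (by positivity)
      _ ≤ 3 * (ε / 8) := by
          apply mul_le_mul_of_nonneg_right _ (by positivity)
          linarith
      _ < ε := by linarith
  have := herr.add hlim
  simp only [zero_add] at this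
  refine this.congr fun n => ?_
  ring

end Q261.FK
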