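import Pool.Agent.Q234.FCPath
import Pool.Agent.Q261.FK.Win

/-!
# Feynman checkers: relations along a fixed time
-/

set_option autoImplicit false

namespace Q261.FK

open Q234.FC

theorem R2 (p M : ℕ) :
    ((p : ℤ) + 1) * V p (M + 1) = ((p : ℤ) + 1) * V (p + 1) M + ((p : ℤ) + 1 - M) * U (p + 1) M := by
  rcases M with _ | k
  · simp [U, V]
  · have h1 := F (p + k) p k rfl
    have h2 := W_succ p k
    simp only [U, V]
    push_cast
    rw [h2]
    linear_combination (-1 : ℤ) * h1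

theorem R1 (p M : ℕ) :
    ((M : ℤ) + 1) * U p (M + 1) = (M : ℤ) * U (p + 1) M - ((p : ℤ) - M) * V p (M + 1) := by
  rcases M with _ | k
  · simp [U, V, W_one_right]
  · have h1 := F (p + k) p k rfl
    have h3 := F (p + (k + 1)) p (k + 1) rfl
    have h2 := W_succ p k
    simp only [U, V]
    push_cast at h3 ⊢
    rw [h2] at h3 ⊢
    linear_combination (-1 : ℤ) * h3 + h1

/-- the vector at time `n + 1`, after `m` steps down -/
noncomputable def X (n m : ℕ) : ℝ := (U (n - m) m : ℝ)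
noncomputable def Y (n m : ℕ) : ℝ := (V (n - m) m : ℝ)

theorem stepY (n m : ℕ) (h : m + 1 ≤ n) :
    Y n (m + 1) = Y n m + (2 * vel n (m + 1) / (1 + vel n (m + 1)) +
      2 / ((1 + vel n (m + 1)) * ((n : ℝ) + 1))) * X n m := by
  have h2 := R2 (n - (m + 1)) m
  have e : n - (m + 1) + 1 = n - m := by omega
  rw [e] at h2
  have hT : (0 : ℝ) < (n : ℝ) + 1 := by positivity
  have hc : ((n - (m + 1) : ℕ) : ℝ) = (n : ℝ) - m - 1 := by
    rw [Nat.cast_sub h]; push_cast; ring
  have h2' := congrArg (Int.cast : ℤ → ℝ) h2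
  push_cast [hc] at h2'
  have hP : (0 : ℝ) < (n : ℝ) - m := by
    have : ((m + 1 : ℕ) : ℝ) ≤ n := by exact_mod_cast h
    push_cast at this
    linarith
  have hs : 1 + vel n (m + 1) = 2 * ((n : ℝ) - m) / ((n : ℝ) + 1) := by
    unfold vel; push_cast; field_simp; ring
  have hs2 : 2 * vel n (m + 1) = 2 * ((n : ℝ) - 2 * m - 1) / ((n : ℝ) + 1) := by
    unfold vel; push_cast; field_simp; ring
  rw [hs, hs2]
  unfold X Y
  field_simp
  linear_combination h2'

theorem stepX (n m : ℕ) (h : m + 1 ≤ n) :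
    X n (m + 1) = (1 - 2 / ((1 - vel n (m + 1)) * ((n : ℝ) + 1))) * X n m -
      (2 * vel n (m + 1) / (1 - vel n (m + 1))) * Y n (m + 1) := by
  have h2 := R1 (n - (m + 1)) m
  have e : n - (m + 1) + 1 = n - m := by omega
  rw [e] at h2
  have hT : (0 : ℝ) < (n : ℝ) + 1 := by positivity
  have hc : ((n - (m + 1) : ℕ) : ℝ) = (n : ℝ) - m - 1 := by
    rw [Nat.cast_sub h]; push_cast; ring
  have h2' := congrArg (Int.cast : ℤ → ℝ) h2
  push_cast [hc] at h2'
  have hm : (0 : ℝ) < (m : ℝ) + 1 := by positivity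
  have hs : 1 - vel n (m + 1) = 2 * ((m : ℝ) + 1) / ((n : ℝ) + 1) := by
    unfold vel; push_cast; field_simp; ring
  have hs2 : 2 * vel n (m + 1) = 2 * ((n : ℝ) - 2 * m - 1) / ((n : ℝ) + 1) := by
    unfold vel; push_cast; field_simp; ring
  rw [hs, hs2]
  unfold X Y
  field_simp
  linear_combination h2'

theorem X_zero (n : ℕ) : X n 0 = 1 := by simp [X, U]
theorem Y_zero (n : ℕ) : Y n 0 = 0 := by simp [Y, V]

end Q261.FK
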