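import Pool.Agent.Q261.FK.Mean
import Pool.Agent.Q261.FK.Rel

/-!
# The elliptic region
-/

set_option autoImplicit false

namespace Q261.FK

open Filter Topology Set

noncomputable def q (s : ℝ) : ℝ := Real.sqrt (1 - 2 * s ^ 2)

theorem q_sq {s : ℝ} (h : 2 * s ^ 2 ≤ 1) : q s ^ 2 = 1 - 2 * s ^ 2 := by
  unfold q
  rw [Real.sq_sqrt (by linarith)]

theorem q_nonneg (s : ℝ) : 0 ≤ q s := Real.sqrt_nonneg _

theorem q_cont : Continuous q := by
  unfold q; fun_prop

theorem q_le_one (s : ℝ) : q s ≤ 1 := by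
  unfold q
  rw [Real.sqrt_le_left (by norm_num)]
  nlinarith [sq_nonneg s]

theorem q_anti {s b : ℝ} (h0 : 0 ≤ s) (h : s ≤ b) : q b ≤ q s := by
  unfold q
  apply Real.sqrt_le_sqrt
  nlinarith

theorem q_pos {b : ℝ} (hb : 2 * b ^ 2 < 1) : 0 < q b := by
  unfold q
  apply Real.sqrt_pos.2
  linarith

/-- invariant coordinate -/
noncomputable def om (s v u : ℝ) : ℂ := ((1 + s) * v + s * u : ℝ) - Complex.I * (q s * u : ℝ)

noncomputable def ee (s : ℝ) : ℂ := ((q s : ℂ) + Complex.I * s) ^ 2 / (1 - s ^ 2)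

theorem om_re (s v u : ℝ) : (om s v u).re = (1 + s) * v + s * u := by
  simp [om]

theorem om_im (s v u : ℝ) : (om s v u).im = -(q s * u) := by
  simp [om]

theorem om_normSq {s : ℝ} (h : 2 * s ^ 2 ≤ 1) (v u : ℝ) :
    ‖om s v u‖ ^ 2 = (1 + s) ^ 2 * v ^ 2 + 2 * s * (1 + s) * u * v + (1 - s ^ 2) * u ^ 2 := by
  rw [← Complex.normSq_eq_norm_sq, Complex.normSq_apply, om_re, om_im]
  have := q_sq h
  linear_combination (u ^ 2) * this

theorem om_lower {s : ℝ} (h0 : 0 ≤ s) (h : 2 * s ^ 2 ≤ 1) (v u : ℝ) :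
    q s / 2 * (|v| + |u|) ≤ ‖om s v u‖ := by
  apply le_of_sq_le_sq _ (norm_nonneg _)
  rw [om_normSq h, mul_pow, div_pow, q_sq h]
  have h1 : (|v| + |u|) ^ 2 ≤ 2 * (v ^ 2 + u ^ 2) := by
    have := sq_nonneg (|v| - |u|)
    nlinarith [sq_abs v, sq_abs u]
  have h2 : (1 - 2 * s ^ 2) / 2 ^ 2 * (|v| + |u|) ^ 2 ≤
      (1 - 2 * s ^ 2) / 2 ^ 2 * (2 * (v ^ 2 + u ^ 2)) :=
    mul_le_mul_of_nonneg_left h1 (by apply div_nonneg <;> linarith)
  refine h2.trans ?_
  have h3 : (1 + s) ^ 2 * v ^ 2 + 2 * s * (1 + s) * u * v + (1 - s ^ 2) * u ^ 2 -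
      (1 - 2 * s ^ 2) / 2 ^ 2 * (2 * (v ^ 2 + u ^ 2)) =
      (1 / 2) * (u + 2 * s * (1 + s) * v) ^ 2 +
      ((1 - 2 * s ^ 2) * (1 + 4 * s + 2 * s ^ 2) / 2) * v ^ 2 := by ring
  have h4 : 0 ≤ ((1 - 2 * s ^ 2) * (1 + 4 * s + 2 * s ^ 2) / 2) * v ^ 2 := by
    apply mul_nonneg _ (sq_nonneg _)
    apply div_nonneg _ (by norm_num)
    exact mul_nonneg (by linarith) (by positivity)
  have h5 : 0 ≤ (1 / 2) * (u + 2 * s * (1 + s) * v) ^ 2 := by positivity
  linarith

theorem ee_norm {s : ℝ} (h : 2 * s ^ 2 ≤ 1) : ‖ee s‖ = 1 := by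
  unfold ee
  have h1 : ‖((q s : ℂ) + Complex.I * s)‖ ^ 2 = 1 - s ^ 2 := by
    rw [← Complex.normSq_eq_norm_sq, Complex.normSq_apply]
    simp
    linear_combination q_sq h
  have h2 : (1 - (s : ℂ) ^ 2) = ((1 - s ^ 2 : ℝ) : ℂ) := by push_cast; ring
  have h3 : 0 < 1 - s ^ 2 := by nlinarith
  rw [norm_div, norm_pow, h1, h2, Complex.norm_real, Real.norm_of_nonneg h3.le, div_self h3.ne']

theorem om_step {s : ℝ} (h : 2 * s ^ 2 ≤ 1) (τ v u v' u' : ℝ)
    (hv : v' = v + (2 * s / (1 + s) + τ / (1 + s)) * u)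
    (hu : u' = (1 - τ / (1 - s)) * u - (2 * s / (1 - s)) * v') (h1 : 1 + s ≠ 0)
    (h2 : 1 - s ≠ 0) :
    om s v' u' = ee s * om s v u + τ * (ee s - ((s : ℂ) - Complex.I * q s) / (1 - s)) * u := by
  have hq : ((q s : ℂ)) ^ 2 = 1 - 2 * (s : ℂ) ^ 2 := by
    have := congrArg (Complex.ofReal) (q_sq h)
    push_cast at this
    exact this
  have h1' : (1 + (s : ℂ)) ≠ 0 := by exact_mod_cast h1
  have h2' : (1 - (s : ℂ)) ≠ 0 := by exact_mod_cast h2
  have h3' : (1 - (s : ℂ) ^ 2) ≠ 0 := by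
    have : (1 - (s : ℂ) ^ 2) = (1 + s) * (1 - s) := by ring
    rw [this]; exact mul_ne_zero h1' h2'
  have e3 : (1 - (s : ℂ) ^ 2) = (1 + s) * (1 - s) := by ring
  have hee : ee s = (1 - 3 * (s : ℂ) ^ 2 + 2 * Complex.I * s * q s) / ((1 + s) * (1 - s)) := by
    unfold ee
    rw [e3]
    congr 1
    linear_combination hq + (s : ℂ) ^ 2 * Complex.I_sq
  rw [hee]
  unfold om
  rw [hu, hv]
  push_cast
  field_simp
  linear_combination (2 * (s : ℂ) * u) * (q s : ℂ) ^ 2 * Complex.I_sq - (2 * (s : ℂ) * u) * hq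

theorem om_diff (s s' v u : ℝ) :
    ‖om s' v u - om s v u‖ ≤ (|s' - s| + |q s' - q s|) * (|v| + |u|) := by
  have e : om s' v u - om s v u = ((s' - s) * (v + u) : ℝ) - Complex.I * ((q s' - q s) * u : ℝ) := by
    unfold om; push_cast; ring
  rw [e]
  refine (norm_sub_le _ _).trans ?_
  rw [norm_mul, Complex.norm_I, one_mul, Complex.norm_real, Complex.norm_real, norm_mul, norm_mul,
    Real.norm_eq_abs, Real.norm_eq_abs, Real.norm_eq_abs, Real.norm_eq_abs]
  have h1 := abs_add_le v u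
  have h2 := abs_nonneg v
  have h3 := abs_nonneg (s' - s)
  have h4 := abs_nonneg (q s' - q s)
  nlinarith [abs_nonneg u, mul_nonneg h4 h2, mul_le_mul_of_nonneg_left h1 h3]

/-- the vector never vanishes -/
theorem XY_ne (n : ℕ) : ∀ m, m ≤ n → 0 < |Y n m| + |X n m| := by
  intro m
  induction m with
  | zero =>
    intro _
    rw [X_zero, Y_zero]; simp
  | succ m ih =>
    intro hm
    by_contra hcon
    have hz : |Y n (m + 1)| + |X n (m + 1)| = 0 :=
      le_antisymm (not_lt.1 hcon) (by positivity)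
    have hY : Y n (m + 1) = 0 := by
      have := abs_nonneg (Y n (m + 1)); have := abs_nonneg (X n (m + 1))
      exact abs_eq_zero.1 (by linarith)
    have hX : X n (m + 1) = 0 := by
      have := abs_nonneg (Y n (m + 1)); have := abs_nonneg (X n (m + 1))
      exact abs_eq_zero.1 (by linarith)
    have hs1 := stepX n m hm
    have hs2 := stepY n m hm
    rw [hX, hY, mul_zero, sub_zero] at hs1
    have hT : (0 : ℝ) < (n : ℝ) + 1 := by positivity
    have hm0 : (0 : ℝ) < (m : ℝ) + 1 := by positivity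
    have e1 : 1 - 2 / ((1 - vel n (m + 1)) * ((n : ℝ) + 1)) = (m : ℝ) / (m + 1) := by
      unfold vel; push_cast; field_simp; ring
    rw [e1] at hs1
    rcases Nat.eq_zero_or_pos m with h0 | h0
    · subst h0
      rw [X_zero, Y_zero] at hs2
      have : Y n (0 + 1) = 1 := by
        simp [Y, Q234.FC.V]
      rw [this] at hY
      norm_num at hY
    · have hmp : (0 : ℝ) < (m : ℝ) := by exact_mod_cast h0
      have hX0 : X n m = 0 := by
        rcases mul_eq_zero.1 hs1.symm with h | h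
        · exact absurd h (by positivity)
        · exact h
      rw [hX0, mul_zero, add_zero, hY] at hs2
      have := ih (by omega)
      rw [hX0, ← hs2] at this
      simp at this

/-- the phase -/
noncomputable def xi (n m : ℕ) : ℂ :=
  starRingEnd ℂ (om (vel n m) (Y n m) (X n m)) / om (vel n m) (Y n m) (X n m)

theorem xi_norm_le (n m : ℕ) : ‖xi n m‖ ≤ 1 := by
  unfold xi
  rw [norm_div, Complex.norm_conj]
  exact div_self_le_one _

theorem conj_ratio {z w : ℂ} (e : ℂ) (he : ‖e‖ = 1) (hz : z ≠ 0) (hw : w ≠ 0) :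
    ‖starRingEnd ℂ w / w - starRingEnd ℂ e ^ 2 * (starRingEnd ℂ z / z)‖ ≤
      2 * ‖w - e * z‖ / ‖w‖ := by
  have he0 : e ≠ 0 := by
    intro h; rw [h, norm_zero] at he; norm_num at he
  have hce : starRingEnd ℂ e * e = 1 := by
    rw [mul_comm, Complex.mul_conj, Complex.normSq_eq_norm_sq, he]; norm_num
  set d := w - e * z with hd
  have hw2 : w = e * z + d := by rw [hd]; ring
  have e1 : starRingEnd ℂ w / w - starRingEnd ℂ e ^ 2 * (starRingEnd ℂ z / z) =
      (starRingEnd ℂ d - starRingEnd ℂ e ^ 2 * (starRingEnd ℂ z / z) * d) / w := by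
    rw [eq_div_iff hw, sub_mul, div_mul_cancel₀ _ hw]
    have h1 : starRingEnd ℂ w = starRingEnd ℂ e * starRingEnd ℂ z + starRingEnd ℂ d := by
      rw [hw2]; simp
    rw [h1]
    nth_rewrite 1 [hw2]
    have h2 : starRingEnd ℂ z / z * z = starRingEnd ℂ z := div_mul_cancel₀ _ hz
    linear_combination (-(starRingEnd ℂ e) ^ 2 * e) * h2 - (starRingEnd ℂ e * starRingEnd ℂ z) * hce
  rw [e1, norm_div]
  apply div_le_div_of_nonneg_right _ (norm_nonneg _)
  refine (norm_sub_le _ _).trans ?_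
  rw [norm_mul, norm_mul, norm_pow, Complex.norm_conj, Complex.norm_conj, norm_div,
    Complex.norm_conj, he, div_self (norm_ne_zero_iff.2 hz)]
  linarith

/-- recursion for the phase -/
theorem xi_rec {b : ℝ} (hb0 : 0 ≤ b) (hb : 2 * b ^ 2 < 1) :
    ∀ ε > 0, ∀ᶠ n in atTop, ∀ m, 0 < vel n (m + 1) → vel n m ≤ b →
      ‖xi n (m + 1) - starRingEnd ℂ (ee (vel n (m + 1))) ^ 2 * xi n m‖ ≤ ε := by
  intro ε hε
  have hb1 : b < 1 := by nlinarith
  have hqb := q_pos hb
  -- small constant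
  set C : ℝ := 2 + 2 / (1 - b) with hC
  have hC0 : 0 < C := by
    have : 0 < 2 / (1 - b) := div_pos (by norm_num) (by linarith)
    rw [hC]; linarith
  set κ : ℝ := min (q b / 4) (ε * q b / 8) with hκ
  have hκ0 : 0 < κ := by rw [hκ]; positivity
  have huc : UniformContinuousOn q (Icc (-4 : ℝ) 1) :=
    isCompact_Icc.uniformContinuousOn_of_continuous q_cont.continuousOn
  rw [Metric.uniformContinuousOn_iff] at huc
  obtain ⟨δ₁, hδ₁, hu⟩ := huc (κ / 2) (by positivity)
  have e2 := (Metric.tendsto_nhds.1 tendsto_inv_T) (min δ₁ (κ / (2 * (C + 1)))) (by positivity)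
  filter_upwards [e2] with n hn m hm1 hm2
  have hT : (0 : ℝ) < (n : ℝ) + 1 := by positivity
  have hτ : (0 : ℝ) < 2 / ((n : ℝ) + 1) := by positivity
  rw [Real.dist_eq, sub_zero, abs_of_pos hτ, lt_min_iff] at hn
  obtain ⟨hn1, hn2⟩ := hn
  have hvs := vel_succ n m
  set s := vel n m with hs
  set s' := vel n (m + 1) with hs'
  set τ : ℝ := 2 / ((n : ℝ) + 1) with hτd
  have hs'b : s' ≤ b := by linarith
  have hs0 : 0 ≤ s := by linarith
  have hs2 : 2 * s ^ 2 ≤ 1 := by nlinarith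
  have hs'2 : 2 * s' ^ 2 ≤ 1 := by nlinarith
  have hmn : m + 1 ≤ n := by
    have h1 : 0 < vel n (m + 1) := hm1
    unfold vel at h1
    have h2 : 2 * ((m + 1 : ℕ) : ℝ) / ((n : ℝ) + 1) < 1 := by linarith
    rw [div_lt_one hT] at h2
    have h3 : 2 * (m + 1) < n + 1 := by exact_mod_cast h2
    omega
  set v := Y n m with hv
  set u := X n m with hu'
  set N := |v| + |u| with hN
  have hNpos : 0 < N := XY_ne n m (by omega)
  have h1s : (1 + s') ≠ 0 := by linarith
  have h2s : (1 - s') ≠ 0 := by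
    have : 0 < 1 - s' := by linarith
    exact this.ne'
  have hstep := om_step hs'2 τ v u (Y n (m + 1)) (X n (m + 1)) (by
      rw [stepY n m hmn, ← hs', hτd]
      have : 2 / ((1 + s') * ((n : ℝ) + 1)) = 2 / ((n : ℝ) + 1) / (1 + s') := by
        field_simp
      rw [this]) (by
      rw [stepX n m hmn, ← hs', hτd]
      have : 2 / ((1 - s') * ((n : ℝ) + 1)) = 2 / ((n : ℝ) + 1) / (1 - s') := by
        field_simp
      rw [this]) h1s h2s
  set w := om s' (Y n (m + 1)) (X n (m + 1)) with hw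
  set z := om s v u with hz
  have hzlow : q b / 2 * N ≤ ‖z‖ := by
    refine le_trans ?_ (om_lower hs0 hs2 v u)
    apply mul_le_mul_of_nonneg_right _ hNpos.le
    linarith [q_anti hs0 hm2]
  have hz0 : z ≠ 0 := by
    intro h
    rw [h, norm_zero] at hzlow
    have : 0 < q b / 2 * N := by positivity
    linarith
  have hen := ee_norm hs'2
  -- the defect
  have hdef : ‖w - ee s' * z‖ ≤ κ * N := by
    have e3 : w - ee s' * z = ee s' * (om s' v u - z) +
        τ * (ee s' - ((s' : ℂ) - Complex.I * q s') / (1 - s')) * u := by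
      rw [hstep]; ring
    rw [e3]
    refine (norm_add_le _ _).trans ?_
    have b1 : ‖ee s' * (om s' v u - z)‖ ≤ (τ + κ / 2) * N := by
      rw [norm_mul, hen, one_mul]
      refine (om_diff s s' v u).trans ?_
      apply mul_le_mul_of_nonneg_right _ hNpos.le
      have a1 : |s' - s| = τ := by
        rw [hvs]
        rw [show s - τ - s = -τ by ring, abs_neg, abs_of_pos hτ]
      have a2 : |q s' - q s| ≤ κ / 2 := by
        have := hu s' ⟨by linarith, by linarith⟩ s ⟨by linarith, by linarith⟩ (by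
          rw [Real.dist_eq, a1]; exact hn1)
        rw [Real.dist_eq] at this
        exact this.le
      linarith
    have b2 : ‖(τ : ℂ) * (ee s' - ((s' : ℂ) - Complex.I * q s') / (1 - s')) * u‖ ≤
        τ * (1 + 2 / (1 - b)) * N := by
      rw [norm_mul, norm_mul, Complex.norm_real, Complex.norm_real, Real.norm_of_nonneg hτ.le,
        Real.norm_eq_abs]
      have c1 : ‖ee s' - ((s' : ℂ) - Complex.I * q s') / (1 - s')‖ ≤ 1 + 2 / (1 - b) := by
        refine (norm_sub_le _ _).trans ?_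
        rw [hen, norm_div]
        apply add_le_add le_rfl
        have c2 : ‖(1 - (s' : ℂ))‖ = 1 - s' := by
          have : (1 - (s' : ℂ)) = ((1 - s' : ℝ) : ℂ) := by push_cast; ring
          rw [this, Complex.norm_real, Real.norm_of_nonneg (by linarith)]
        rw [c2]
        have c3 : ‖(s' : ℂ) - Complex.I * q s'‖ ≤ 2 := by
          refine (norm_sub_le _ _).trans ?_
          rw [norm_mul, Complex.norm_I, one_mul, Complex.norm_real, Complex.norm_real,
            Real.norm_of_nonneg hm1.le, Real.norm_of_nonneg (q_nonneg s')]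
          linarith [q_le_one s']
        exact div_le_div₀ (by norm_num) c3 (by linarith) (by linarith)
      have c4 : |u| ≤ N := by rw [hN]; linarith [abs_nonneg v]
      exact mul_le_mul (mul_le_mul_of_nonneg_left c1 hτ.le) c4 (abs_nonneg _)
        (by have : 0 < 2 / (1 - b) := div_pos (by norm_num) (by linarith)
            positivity)
    have b3 : τ * (C + 1) ≤ κ / 2 := by
      have : τ * (C + 1) ≤ κ / (2 * (C + 1)) * (C + 1) :=
        mul_le_mul_of_nonneg_right hn2.le (by linarith)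
      refine this.trans (le_of_eq ?_)
      field_simp
    calc ‖ee s' * (om s' v u - z)‖ +
          ‖(τ : ℂ) * (ee s' - ((s' : ℂ) - Complex.I * q s') / (1 - s')) * u‖
        ≤ (τ + κ / 2) * N + τ * (1 + 2 / (1 - b)) * N := add_le_add b1 b2
      _ = (τ * C + κ / 2) * N := by rw [hC]; ring
      _ ≤ κ * N := by
          apply mul_le_mul_of_nonneg_right _ hNpos.le
          nlinarith
  have hwlow : q b / 4 * N ≤ ‖w‖ := by
    have d1 : ‖ee s' * z‖ ≤ ‖w‖ + ‖w - ee s' * z‖ := by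
      have : ee s' * z = w - (w - ee s' * z) := by ring
      calc ‖ee s' * z‖ = ‖w - (w - ee s' * z)‖ := by rw [← this]
        _ ≤ ‖w‖ + ‖w - ee s' * z‖ := norm_sub_le _ _
    rw [norm_mul, hen, one_mul] at d1
    have d2 : κ * N ≤ q b / 4 * N :=
      mul_le_mul_of_nonneg_right (by rw [hκ]; exact min_le_left _ _) hNpos.le
    nlinarith
  have hw0 : w ≠ 0 := by
    intro h
    rw [h, norm_zero] at hwlow
    have : 0 < q b / 4 * N := by positivity
    linarith
  have hfin := conj_ratio (ee s') hen hz0 hw0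
  have hx1 : xi n (m + 1) = starRingEnd ℂ w / w := rfl
  have hx2 : xi n m = starRingEnd ℂ z / z := rfl
  rw [hx1, hx2]
  refine hfin.trans ?_
  rw [div_le_iff₀ (norm_pos_iff.2 hw0)]
  have k1 : κ ≤ ε * q b / 8 := by rw [hκ]; exact min_le_right _ _
  have k2 : κ * N ≤ ε * q b / 8 * N := mul_le_mul_of_nonneg_right k1 hNpos.le
  have k3 : ε * (q b / 4 * N) ≤ ε * ‖w‖ := mul_le_mul_of_nonneg_left hwlow hε.le
  nlinarith

end Q261.FK
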