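import Pool.Agent.Q261.FK.Ell

/-!
# The elliptic region: the averages
-/

set_option autoImplicit false

namespace Q261.FK

open Filter Topology Set

/-- clamp -/
noncomputable def cl (b s : ℝ) : ℝ := max 0 (min s b)

theorem cl_cont (b : ℝ) : Continuous (cl b) := by unfold cl; fun_prop

theorem cl_eq {b s : ℝ} (h0 : 0 ≤ s) (h : s ≤ b) : cl b s = s := by
  unfold cl; rw [min_eq_left h, max_eq_right h0]

theorem cl_mem {b : ℝ} (hb : 0 ≤ b) (s : ℝ) : 0 ≤ cl b s ∧ cl b s ≤ b := by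
  unfold cl
  exact ⟨le_max_left _ _, max_le hb (min_le_right _ _)⟩

theorem ee_re {s : ℝ} (h : 2 * s ^ 2 ≤ 1) : (ee s).re = 3 - 2 / (1 - s ^ 2) := by
  have h3 : 0 < 1 - s ^ 2 := by nlinarith
  have e : ee s = ((1 - 3 * s ^ 2 : ℝ) + (2 * s * q s : ℝ) * Complex.I) / ((1 - s ^ 2 : ℝ) : ℂ) := by
    unfold ee
    have hq : ((q s : ℂ)) ^ 2 = 1 - 2 * (s : ℂ) ^ 2 := by
      have := congrArg (Complex.ofReal) (q_sq h)
      push_cast at this
      exact this
    push_cast
    congr 1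
    linear_combination hq + (s : ℂ) ^ 2 * Complex.I_sq
  rw [e, Complex.div_ofReal_re]
  simp only [Complex.add_re, Complex.ofReal_re, Complex.mul_I_re, Complex.ofReal_im, neg_zero,
    add_zero]
  have : (1 - s ^ 2) ≠ 0 := h3.ne'
  field_simp
  ring

theorem fin_roots (N : ℕ) (hN : 0 < N) : {z : ℂ | z ^ N = 1}.Finite := by
  have h : {z : ℂ | z ^ N = 1} = (Polynomial.nthRootsFinset N (1 : ℂ) : Set ℂ) := by
    ext z
    simp [Polynomial.mem_nthRootsFinset hN]
  rw [h]
  exact Finset.finite_toSet _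

/-- rotation -/
noncomputable def Eb (b s : ℝ) : ℂ := starRingEnd ℂ (ee (cl b s)) ^ 2

theorem ee_cont {b : ℝ} (hb0 : 0 ≤ b) (hb : 2 * b ^ 2 < 1) : Continuous (fun s => ee (cl b s)) := by
  unfold ee
  apply Continuous.div
  · have h1 : Continuous (fun s => (q (cl b s) : ℂ)) :=
      Complex.continuous_ofReal.comp (q_cont.comp (cl_cont b))
    have h2 : Continuous (fun s => (cl b s : ℂ)) := Complex.continuous_ofReal.comp (cl_cont b)
    exact (h1.add (continuous_const.mul h2)).pow 2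
  · have h2 : Continuous (fun s => (cl b s : ℂ)) := Complex.continuous_ofReal.comp (cl_cont b)
    exact continuous_const.sub (h2.pow 2)
  · intro s
    obtain ⟨h1, h2⟩ := cl_mem hb0 s
    have h3 : 0 < 1 - (cl b s) ^ 2 := by nlinarith
    have e : (1 - (cl b s : ℂ) ^ 2) = ((1 - (cl b s) ^ 2 : ℝ) : ℂ) := by push_cast; ring
    rw [e]
    exact_mod_cast h3.ne'

theorem Eb_cont {b : ℝ} (hb0 : 0 ≤ b) (hb : 2 * b ^ 2 < 1) : Continuous (Eb b) := by
  unfold Eb
  exact (Complex.continuous_conj.comp (ee_cont hb0 hb)).pow 2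

theorem Eb_fin {b : ℝ} (hb0 : 0 ≤ b) (hb : 2 * b ^ 2 < 1) (k : ℕ) (hk : 0 < k) :
    {s ∈ Icc (0 : ℝ) b | (Eb b s) ^ k = 1}.Finite := by
  have hinj : InjOn ee (Icc (0 : ℝ) b) := by
    intro x hx y hy hxy
    have h1 := congrArg Complex.re hxy
    have hx2 : 2 * x ^ 2 ≤ 1 := by nlinarith [hx.1, hx.2]
    have hy2 : 2 * y ^ 2 ≤ 1 := by nlinarith [hy.1, hy.2]
    rw [ee_re hx2, ee_re hy2] at h1
    have h3 : (1 - x ^ 2) ≠ 0 := by nlinarith
    have h4 : (1 - y ^ 2) ≠ 0 := by nlinarith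
    have h5 : 2 / (1 - x ^ 2) = 2 / (1 - y ^ 2) := by linarith
    rw [div_eq_div_iff h3 h4] at h5
    have h6 : (x - y) * (x + y) = 0 := by nlinarith
    rcases mul_eq_zero.1 h6 with h | h
    · linarith
    · have := hx.1; have := hy.1; linarith
  have hf := Set.Finite.preimage (f := ee) (s := {z : ℂ | z ^ (2 * k) = 1} ∩ ee '' (Icc (0 : ℝ) b))
  have hfin : (Icc (0 : ℝ) b ∩ ee ⁻¹' {z : ℂ | z ^ (2 * k) = 1}).Finite :=
    Set.Finite.of_finite_image
      ((fin_roots (2 * k) (by omega)).subset (by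
        rintro z ⟨s, ⟨hs1, hs2⟩, rfl⟩
        exact hs2)) (hinj.mono (fun s hs => hs.1))
  apply hfin.subset
  rintro s ⟨hs, hs2⟩
  refine ⟨hs, ?_⟩
  change ee s ^ (2 * k) = 1
  unfold Eb at hs2
  rw [cl_eq hs.1 hs.2, ← pow_mul, ← map_pow] at hs2
  have := congrArg (starRingEnd ℂ) hs2
  simpa using this

theorem pow_diff (x y : ℂ) (hx : ‖x‖ ≤ 1) (hy : ‖y‖ ≤ 1) (k : ℕ) :
    ‖x ^ k - y ^ k‖ ≤ k * ‖x - y‖ := by
  induction k with
  | zero => simp
  | succ k ih =>
    have e : x ^ (k + 1) - y ^ (k + 1) = x ^ k * (x - y) + (x ^ k - y ^ k) * y := by ring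
    rw [e]
    refine (norm_add_le _ _).trans ?_
    rw [norm_mul, norm_mul, norm_pow]
    have h1 : ‖x‖ ^ k ≤ 1 := pow_le_one₀ (norm_nonneg _) hx
    have h2 := norm_nonneg (x - y)
    have h3 := norm_nonneg (x ^ k - y ^ k)
    push_cast
    nlinarith [norm_nonneg y, norm_nonneg x]

theorem mean_xi {b : ℝ} (hb0 : 0 ≤ b) (hb : 2 * b ^ 2 < 1) (k : ℕ) (hk : 0 < k) (ψ : ℝ → ℂ)
    (hψ : Continuous ψ) :
    Tendsto (avg 0 b (fun n m => ψ (vel n m) * xi n m ^ k)) atTop (𝓝 0) := by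
  have hb1 : b ≤ 1 := by nlinarith
  apply mean_zero (by norm_num) hb0 hb1 (fun n m => xi n m ^ k) _ (fun s => (Eb b s) ^ k) ψ
    ((Eb_cont hb0 hb).pow k) hψ (Eb_fin hb0 hb k hk)
  · intro ε hε
    have hk' : (0 : ℝ) < k := by exact_mod_cast hk
    filter_upwards [xi_rec hb0 hb (ε / k) (by positivity)] with n hn m hm1 hm2
    have hvs := vel_succ n m
    have hτ : (0 : ℝ) < 2 / ((n : ℝ) + 1) := by positivity
    have e1 : Eb b (vel n (m + 1)) = starRingEnd ℂ (ee (vel n (m + 1))) ^ 2 := by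
      unfold Eb; rw [cl_eq hm1.le (by linarith)]
    have h1 := hn m hm1 hm2
    rw [← e1] at h1
    rw [← mul_pow]
    have hs2 : 2 * (vel n (m + 1)) ^ 2 ≤ 1 := by nlinarith
    refine (pow_diff _ _ (xi_norm_le _ _) ?_ k).trans ?_
    · rw [norm_mul, e1, norm_pow, Complex.norm_conj, ee_norm hs2, one_pow, one_mul]
      exact xi_norm_le _ _
    · calc (k : ℝ) * ‖xi n (m + 1) - Eb b (vel n (m + 1)) * xi n m‖ ≤ k * (ε / k) :=
          mul_le_mul_of_nonneg_left h1 hk'.le
        _ = ε := by field_simp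
  · intro n m
    rw [norm_pow]
    exact pow_le_one₀ (norm_nonneg _) (xi_norm_le _ _)

/-! ### expansion of the order parameter -/

noncomputable def cA (s : ℝ) : ℂ := ((1 + s - q s : ℝ) : ℂ) - Complex.I * s
noncomputable def cB (s : ℝ) : ℂ := ((1 + s + q s : ℝ) : ℂ) - Complex.I * s

/-- ratio -/
noncomputable def rr (s : ℝ) : ℂ := cA s / cB s
noncomputable def kap (s : ℝ) : ℂ := ((4 * (1 + s) * q s : ℝ) : ℂ) / cB s ^ 2

/-- order parameter -/
noncomputable def FF (v u : ℝ) : ℝ := u ^ 2 / (u ^ 2 + v ^ 2)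

theorem cA_normSq {s : ℝ} (h : 2 * s ^ 2 ≤ 1) : ‖cA s‖ ^ 2 = 2 * (1 + s) * (1 - q s) := by
  rw [← Complex.normSq_eq_norm_sq, Complex.normSq_apply]
  simp [cA]
  linear_combination q_sq h

theorem cB_normSq {s : ℝ} (h : 2 * s ^ 2 ≤ 1) : ‖cB s‖ ^ 2 = 2 * (1 + s) * (1 + q s) := by
  rw [← Complex.normSq_eq_norm_sq, Complex.normSq_apply]
  simp [cB]
  linear_combination q_sq h

theorem cB_ne {s : ℝ} (h0 : 0 ≤ s) : cB s ≠ 0 := by
  intro h
  have := congrArg Complex.re h
  simp [cB] at this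
  have := q_nonneg s
  linarith


theorem key_expand {s : ℝ} (h0 : 0 ≤ s) (h : 2 * s ^ 2 < 1) {v u : ℝ} (hvu : 0 < |v| + |u|) :
    kap s * (starRingEnd ℂ (om s v u) / om s v u) /
      (1 - rr s * (starRingEnd ℂ (om s v u) / om s v u)) =
    starRingEnd ℂ (cA s) / cB s + ((v : ℂ) + Complex.I * u) / ((v : ℂ) - Complex.I * u) := by
  have hq0 := q_pos h
  have hw0 : om s v u ≠ 0 := by
    intro hz
    have := om_lower h0 h.le v u
    rw [hz, norm_zero] at this
    have : 0 < q s / 2 * (|v| + |u|) := by positivity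
    linarith
  have hz0 : (v : ℂ) - Complex.I * u ≠ 0 := by
    intro hz
    have h1 := congrArg Complex.re hz
    have h2 := congrArg Complex.im hz
    simp at h1 h2
    rw [h1, h2] at hvu
    simp at hvu
  have hB := cB_ne h0
  have hq : ((q s : ℂ)) ^ 2 = 1 - 2 * (s : ℂ) ^ 2 := by
    have := congrArg (Complex.ofReal) (q_sq h.le)
    push_cast at this
    exact this
  have hcw : starRingEnd ℂ (om s v u) = ((1 + s) * v + s * u : ℝ) + Complex.I * (q s * u : ℝ) := by
    unfold om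
    simp only [map_sub, map_mul, Complex.conj_ofReal, Complex.conj_I]
    ring
  have hD : ((4 * (1 + s) * q s : ℝ) : ℂ) ≠ 0 := by
    rw [Complex.ofReal_ne_zero]
    have : 0 < 4 * (1 + s) * q s := by positivity
    exact this.ne'
  have hcA : starRingEnd ℂ (cA s) = ((1 + s - q s : ℝ) : ℂ) + Complex.I * s := by
    unfold cA
    simp only [map_sub, map_mul, Complex.conj_ofReal, Complex.conj_I]
    ring
  have e1 : cB s * om s v u - cA s * starRingEnd ℂ (om s v u) =
      ((4 * (1 + s) * q s : ℝ) : ℂ) * ((v : ℂ) - Complex.I * u) / 2 := by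
    rw [hcw]
    unfold cA cB om
    push_cast
    ring_nf
    rw [Complex.I_sq]
    ring
  have e2 : 1 - rr s * (starRingEnd ℂ (om s v u) / om s v u) =
      (((4 * (1 + s) * q s : ℝ) : ℂ) * ((v : ℂ) - Complex.I * u) / 2) / (cB s * om s v u) := by
    rw [← e1]
    unfold rr
    field_simp
  have e3 : 2 * starRingEnd ℂ (om s v u) =
      starRingEnd ℂ (cA s) * ((v : ℂ) - Complex.I * u) + cB s * ((v : ℂ) + Complex.I * u) := by
    rw [hcw, hcA]
    unfold cB
    push_cast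
    ring_nf
    rw [Complex.I_sq]
    ring
  rw [e2]
  unfold kap
  rw [show ((4 * (1 + s) * q s : ℝ) : ℂ) / cB s ^ 2 * (starRingEnd ℂ (om s v u) / om s v u) /
      ((((4 * (1 + s) * q s : ℝ) : ℂ) * ((v : ℂ) - Complex.I * u) / 2) / (cB s * om s v u)) =
      (2 * starRingEnd ℂ (om s v u)) / (cB s * ((v : ℂ) - Complex.I * u)) by
    field_simp]
  rw [e3]
  field_simp

theorem re_c0 {s : ℝ} (h0 : 0 ≤ s) (h : 2 * s ^ 2 ≤ 1) :
    (starRingEnd ℂ (cA s) / cB s).re = s / (1 + q s) := by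
  rw [Complex.div_re, Complex.normSq_eq_norm_sq, cB_normSq h]
  have h1 : 0 ≤ q s := q_nonneg s
  simp [cA, cB]
  have h2 : 1 + q s ≠ 0 := by positivity
  have h3 : 1 + s ≠ 0 := by positivity
  field_simp
  linear_combination (-1 : ℝ) * q_sq h

theorem FF_eq {v u : ℝ} (hvu : 0 < |v| + |u|) :
    FF v u = 1 / 2 - 1 / 2 * (((v : ℂ) + Complex.I * u) / ((v : ℂ) - Complex.I * u)).re := by
  have h1 : u ^ 2 + v ^ 2 ≠ 0 := by
    intro h
    have hv : v = 0 := by nlinarith [sq_nonneg u, sq_nonneg v]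
    have hu : u = 0 := by nlinarith [sq_nonneg u, sq_nonneg v]
    rw [hv, hu] at hvu
    simp at hvu
  rw [Complex.div_re, Complex.normSq_apply]
  simp [FF]
  have h2 : v * v + u * u = u ^ 2 + v ^ 2 := by ring
  rw [h2]
  field_simp
  ring

theorem FF_expand {s : ℝ} (h0 : 0 ≤ s) (h : 2 * s ^ 2 < 1) {v u : ℝ} (hvu : 0 < |v| + |u|) :
    FF v u = 1 / 2 + s / (2 * (1 + q s)) - 1 / 2 *
      (kap s * (starRingEnd ℂ (om s v u) / om s v u) /
      (1 - rr s * (starRingEnd ℂ (om s v u) / om s v u))).re := by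
  rw [key_expand h0 h hvu, Complex.add_re, re_c0 h0 h.le, FF_eq hvu]
  have h1 : 0 ≤ q s := q_nonneg s
  have h2 : 1 + q s ≠ 0 := by positivity
  field_simp
  ring

theorem geo (κ r ξ : ℂ) (K : ℕ) (h : 1 - r * ξ ≠ 0) :
    κ * ξ / (1 - r * ξ) = ∑ k ∈ Finset.range K, κ * r ^ k * ξ ^ (k + 1) +
      κ * r ^ K * ξ ^ (K + 1) / (1 - r * ξ) := by
  induction K with
  | zero => simp
  | succ K ih =>
    rw [Finset.sum_range_succ, ih, add_assoc]
    congr 1
    field_simp
    ring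


/-- coefficient functions -/
noncomputable def psi (b : ℝ) (k : ℕ) (s : ℝ) : ℂ := kap (cl b s) * rr (cl b s) ^ k

noncomputable def hh (b s : ℝ) : ℝ := 1 / 2 + cl b s / (2 * (1 + q (cl b s)))

theorem hh_cont (b : ℝ) : Continuous (hh b) := by
  unfold hh
  apply continuous_const.add
  apply Continuous.div (cl_cont b)
  · exact continuous_const.mul (continuous_const.add (q_cont.comp (cl_cont b)))
  · intro s
    have := q_nonneg (cl b s)
    positivity

theorem psi_cont {b : ℝ} (hb : 0 ≤ b) (k : ℕ) : Continuous (psi b k) := by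
  have h1 : Continuous (fun s => (q (cl b s) : ℂ)) :=
    Complex.continuous_ofReal.comp (q_cont.comp (cl_cont b))
  have h2 : Continuous (fun s => (cl b s : ℂ)) := Complex.continuous_ofReal.comp (cl_cont b)
  have hB : Continuous (fun s => cB (cl b s)) := by
    unfold cB; push_cast; fun_prop
  have hA : Continuous (fun s => cA (cl b s)) := by
    unfold cA; push_cast; fun_prop
  have hB0 : ∀ s, cB (cl b s) ≠ 0 := fun s => cB_ne (cl_mem hb s).1
  have hr : Continuous (fun s => rr (cl b s)) := by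
    unfold rr; exact hA.div hB hB0
  have hk : Continuous (fun s => kap (cl b s)) := by
    unfold kap
    apply Continuous.div _ (hB.pow 2) (fun s => pow_ne_zero _ (hB0 s))
    push_cast; fun_prop
  unfold psi
  exact hk.mul (hr.pow k)

theorem rr_sq {s : ℝ} (h0 : 0 ≤ s) (h : 2 * s ^ 2 ≤ 1) :
    ‖rr s‖ ^ 2 = (1 - q s) / (1 + q s) := by
  unfold rr
  rw [norm_div, div_pow, cA_normSq h, cB_normSq h]
  have h1 : 0 ≤ q s := q_nonneg s
  have h2 : 1 + q s ≠ 0 := by positivity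
  have h3 : 1 + s ≠ 0 := by positivity
  field_simp

theorem rr_le {s b : ℝ} (h0 : 0 ≤ s) (hsb : s ≤ b) (h : 2 * b ^ 2 < 1) :
    ‖rr s‖ ≤ Real.sqrt ((1 - q b) / (1 + q b)) := by
  have hs : 2 * s ^ 2 ≤ 1 := by nlinarith
  apply Real.le_sqrt_of_sq_le
  rw [rr_sq h0 hs]
  have h1 := q_anti h0 hsb
  have h2 := q_pos h
  rw [div_le_div_iff₀ (by linarith) (by linarith)]
  nlinarith

theorem kap_le {s : ℝ} (h0 : 0 ≤ s) (h : 2 * s ^ 2 ≤ 1) : ‖kap s‖ ≤ 2 := by
  unfold kap
  have h1 : 0 ≤ q s := q_nonneg s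
  rw [norm_div, norm_pow, cB_normSq h, Complex.norm_real, Real.norm_of_nonneg (by positivity),
    div_le_iff₀ (by positivity)]
  nlinarith [q_le_one s]

/-- the elliptic average -/
theorem ell_avg {b : ℝ} (hb0 : 0 ≤ b) (hb : 2 * b ^ 2 < 1) :
    Tendsto (ravg 0 b (fun n m => FF (Y n m) (X n m) - hh b (vel n m))) atTop (𝓝 0) := by
  have hb1 : b ≤ 1 := by nlinarith
  have hqb := q_pos hb
  set ρ : ℝ := Real.sqrt ((1 - q b) / (1 + q b)) with hρ
  have hρ1 : ρ < 1 := by
    rw [hρ, Real.sqrt_lt' (by norm_num), div_lt_iff₀ (by linarith)]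
    linarith
  have hρ0 : 0 ≤ ρ := Real.sqrt_nonneg _
  rw [Metric.tendsto_atTop]
  intro ε hε
  obtain ⟨K, hK⟩ : ∃ K : ℕ, ρ ^ K < ε * (1 - ρ) / 8 := by
    apply exists_pow_lt_of_lt_one _ hρ1
    have : 0 < 1 - ρ := by linarith
    positivity
  have hsum : Tendsto (fun n => ∑ k ∈ Finset.range K,
      ‖avg 0 b (fun n m => psi b k (vel n m) * xi n m ^ (k + 1)) n‖) atTop (𝓝 0) := by
    have : (0 : ℝ) = ∑ k ∈ Finset.range K, (0 : ℝ) := by simp
    rw [this]
    apply tendsto_finset_sum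
    intro k _
    have := (mean_xi hb0 hb (k + 1) (by omega) (psi b k) (psi_cont hb0 k)).norm
    simpa using this
  have e1 := (Metric.tendsto_nhds.1 hsum) (ε / 4) (by positivity)
  have e2 := (Metric.tendsto_nhds.1 tendsto_inv_T) 1 (by norm_num)
  have e12 := e1.and e2
  rw [eventually_atTop] at e12
  obtain ⟨N, hN⟩ := e12
  refine ⟨N, fun n hn => ?_⟩
  obtain ⟨h1, h2⟩ := hN n hn
  have hτ : (0 : ℝ) < 2 / ((n : ℝ) + 1) := by positivity
  rw [Real.dist_eq, sub_zero, abs_of_pos hτ] at h2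
  rw [Real.dist_eq, sub_zero, abs_of_nonneg (Finset.sum_nonneg fun _ _ => norm_nonneg _)] at h1
  rw [Real.dist_eq, sub_zero]
  -- pointwise
  set tl : ℕ → ℕ → ℂ := fun n m => kap (vel n m) * rr (vel n m) ^ K * xi n m ^ (K + 1) /
    (1 - rr (vel n m) * xi n m) with htl
  have hpt : ∀ m, 0 < vel n m → vel n m ≤ b →
      FF (Y n m) (X n m) - hh b (vel n m) =
        -(1 / 2) * (∑ k ∈ Finset.range K, psi b k (vel n m) * xi n m ^ (k + 1)).re -
        1 / 2 * (tl n m).re ∧ ‖tl n m‖ ≤ ε / 4 := by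
    intro m hm1 hm2
    have hs2 : 2 * (vel n m) ^ 2 < 1 := by nlinarith
    have hmn : m ≤ n := by
      unfold vel at hm1
      have hT : (0 : ℝ) < (n : ℝ) + 1 := by positivity
      have h2 : 2 * (m : ℝ) / ((n : ℝ) + 1) < 1 := by linarith
      rw [div_lt_one hT] at h2
      have h3 : 2 * m < n + 1 := by exact_mod_cast h2
      omega
    have hne := XY_ne n m hmn
    have hr := rr_le hm1.le hm2 hb
    have hxi := xi_norm_le n m
    have hrx : ‖rr (vel n m) * xi n m‖ ≤ ρ := by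
      rw [norm_mul]
      calc ‖rr (vel n m)‖ * ‖xi n m‖ ≤ ρ * 1 := mul_le_mul hr hxi (norm_nonneg _) hρ0
        _ = ρ := mul_one _
    have hden : 1 - ρ ≤ ‖1 - rr (vel n m) * xi n m‖ := by
      have := norm_sub_norm_le (1 : ℂ) (rr (vel n m) * xi n m)
      rw [norm_one] at this
      linarith
    have hden0 : 1 - rr (vel n m) * xi n m ≠ 0 := by
      rw [← norm_pos_iff]; linarith
    constructor
    · rw [FF_expand hm1.le hs2 hne]
      have : kap (vel n m) * xi n m / (1 - rr (vel n m) * xi n m) =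
          ∑ k ∈ Finset.range K, psi b k (vel n m) * xi n m ^ (k + 1) + tl n m := by
        rw [geo _ _ _ K hden0]
        unfold psi
        rw [cl_eq hm1.le hm2]
      change 1 / 2 + vel n m / (2 * (1 + q (vel n m))) - 1 / 2 *
        (kap (vel n m) * xi n m / (1 - rr (vel n m) * xi n m)).re - hh b (vel n m) = _
      rw [this, Complex.add_re]
      unfold hh
      rw [cl_eq hm1.le hm2]
      ring
    · rw [htl]
      simp only
      rw [norm_div, norm_mul, norm_mul, norm_pow, norm_pow, div_le_iff₀ (norm_pos_iff.2 hden0)]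
      have k1 := kap_le hm1.le hs2.le
      have k2 : ‖rr (vel n m)‖ ^ K ≤ ρ ^ K := pow_le_pow_left₀ (norm_nonneg _) hr K
      have k3 : ‖xi n m‖ ^ (K + 1) ≤ 1 := pow_le_one₀ (norm_nonneg _) hxi
      calc ‖kap (vel n m)‖ * ‖rr (vel n m)‖ ^ K * ‖xi n m‖ ^ (K + 1)
          ≤ 2 * ρ ^ K * 1 := by
            apply mul_le_mul _ k3 (by positivity) (by positivity)
            exact mul_le_mul k1 k2 (by positivity) (by norm_num)
        _ ≤ 2 * (ε * (1 - ρ) / 8) := by linarith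
        _ = ε / 4 * (1 - ρ) := by ring
        _ ≤ ε / 4 * ‖1 - rr (vel n m) * xi n m‖ :=
            mul_le_mul_of_nonneg_left hden (by positivity)
  -- sum
  have hsum2 : ravg 0 b (fun n m => FF (Y n m) (X n m) - hh b (vel n m)) n =
      -(1 / 2) * (∑ k ∈ Finset.range K,
        avg 0 b (fun n m => psi b k (vel n m) * xi n m ^ (k + 1)) n).re -
      1 / 2 * (avg 0 b tl n).re := by
    have e3 : ∑ k ∈ Finset.range K,
        avg 0 b (fun n m => psi b k (vel n m) * xi n m ^ (k + 1)) n =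
        avg 0 b (fun n m => ∑ k ∈ Finset.range K, psi b k (vel n m) * xi n m ^ (k + 1)) n := by
      unfold avg
      rw [← Finset.mul_sum, Finset.sum_comm]
    rw [e3]
    unfold ravg avg
    rw [Complex.re_ofReal_mul, Complex.re_ofReal_mul, Complex.re_sum, Complex.re_sum]
    have hs3 : ∑ m ∈ win 0 b n, (FF (Y n m) (X n m) - hh b (vel n m)) =
        ∑ m ∈ win 0 b n, (-(1 / 2) *
          (∑ k ∈ Finset.range K, psi b k (vel n m) * xi n m ^ (k + 1)).re -
          1 / 2 * (tl n m).re) := by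
      apply Finset.sum_congr rfl
      intro m hm
      obtain ⟨hm1, hm2⟩ := mem_win.1 hm
      exact (hpt m hm1 hm2).1
    simp only
    rw [hs3, Finset.sum_sub_distrib, ← Finset.mul_sum, ← Finset.mul_sum]
    ring
  rw [hsum2]
  have hn1 : |(∑ k ∈ Finset.range K,
        avg 0 b (fun n m => psi b k (vel n m) * xi n m ^ (k + 1)) n).re| ≤ ε / 4 := by
    refine (Complex.abs_re_le_norm _).trans ?_
    exact (norm_sum_le _ _).trans h1.le
  have hn2 : |(avg 0 b tl n).re| ≤ ε / 2 := by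
    refine (Complex.abs_re_le_norm _).trans ?_
    refine (norm_avg_le _ _).trans ?_
    have h3 : ravg 0 b (fun n m => ‖tl n m‖) n ≤ ravg 0 b (fun _ _ => ε / 4) n := by
      apply ravg_mono
      intro m hm1 hm2
      exact (hpt m hm1 hm2).2
    refine h3.trans ?_
    refine (ravg_const hb0 hb1 (by positivity) n).trans ?_
    have : b - 0 + 2 / ((n : ℝ) + 1) ≤ 2 := by linarith
    calc (b - 0 + 2 / ((n : ℝ) + 1)) * (ε / 4) ≤ 2 * (ε / 4) :=
          mul_le_mul_of_nonneg_right this (by positivity)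
      _ = ε / 2 := by ring
  have a1 := abs_le.1 hn1
  have a2 := abs_le.1 hn2
  rw [abs_lt]
  constructor <;> linarith [a1.1, a1.2, a2.1, a2.2]

/-- antiderivative in the elliptic region -/
noncomputable def G1 (v : ℝ) : ℝ :=
  v / 2 + (1 / 4) * (1 - Real.sqrt (1 - 2 * v ^ 2) + Real.log ((1 + Real.sqrt (1 - 2 * v ^ 2)) / 2))

theorem G1_zero : G1 0 = 0 := by
  unfold G1; norm_num

theorem G1_deriv {s : ℝ} (h : 2 * s ^ 2 < 1) :
    HasDerivAt G1 (1 / 2 + s / (2 * (1 + q s))) s := by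
  have hpos : 0 < 1 - 2 * s ^ 2 := by linarith
  have h1 : HasDerivAt (fun x : ℝ => 1 - 2 * x ^ 2) (-(4 * s)) s := by
    have := ((hasDerivAt_pow 2 s).const_mul 2).const_sub 1
    refine this.congr_deriv ?_
    simp; ring
  have h2 := h1.sqrt hpos.ne'
  have hq : Real.sqrt (1 - 2 * s ^ 2) = q s := rfl
  rw [hq] at h2
  have hq0 : 0 < q s := q_pos h
  have h3 : HasDerivAt (fun x : ℝ => (1 + Real.sqrt (1 - 2 * x ^ 2)) / 2)
      (-(4 * s) / (2 * q s) / 2) s := (h2.const_add 1).div_const 2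
  have h4 := h3.log (by rw [hq]; positivity)
  rw [hq] at h4
  have h5 := ((hasDerivAt_id s).div_const 2).add (((h2.const_sub 1).add h4).const_mul (1 / 4))
  refine h5.congr_deriv ?_
  have : (1 + q s) ≠ 0 := by positivity
  field_simp
  ring

theorem ell_limit {b : ℝ} (hb0 : 0 ≤ b) (hb : 2 * b ^ 2 < 1) :
    Tendsto (ravg 0 b (fun n m => FF (Y n m) (X n m))) atTop (𝓝 (G1 b)) := by
  have hb1 : b ≤ 1 := by nlinarith
  have h1 := ell_avg hb0 hb
  have h2 := riemann (by norm_num) hb0 hb1 (hh b) (fun x => ∫ s in (0 : ℝ)..x, hh b s) (hh_cont b)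
    (fun x => by
      apply intervalIntegral.integral_hasDerivAt_right
      · exact (hh_cont b).intervalIntegrable _ _
      · exact (hh_cont b).stronglyMeasurableAtFilter _ _
      · exact (hh_cont b).continuousAt)
  have hint : ∫ s in (0 : ℝ)..b, hh b s = G1 b - G1 0 := by
    apply intervalIntegral.integral_eq_sub_of_hasDerivAt
    · intro x hx
      rw [uIcc_of_le hb0] at hx
      have := G1_deriv (s := x) (by nlinarith [hx.1, hx.2])
      unfold hh
      rw [cl_eq hx.1 hx.2]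
      exact this
    · exact (hh_cont b).intervalIntegrable _ _
  rw [hint, G1_zero] at h2
  simp only [intervalIntegral.integral_same, sub_zero] at h2
  have h3 := h1.add h2
  rw [zero_add] at h3
  refine h3.congr fun n => ?_
  rw [← ravg_add]
  unfold ravg
  congr 1
  apply Finset.sum_congr rfl
  intro m _
  ring

end Q261.FK
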