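import Pool.Agent.Q261.FK.Hyp
import Pool.Agent.Q261.FK.Defs

/-!
# From path sums to windows, and the comparison of the two formulas
-/

set_option autoImplicit false

namespace Q261.FK

open Filter Topology Set

theorem amp_term (n m : ℕ) (hm : m ≤ n) :
    ‖((amp n ((n : ℤ) + 1 - 2 * m)).im : ℂ) / amp n ((n : ℤ) + 1 - 2 * m)‖ ^ 2 =
      FF (Y n m) (X n m) := by
  have hκ : 0 < (2 : ℝ) ^ ((1 - ((n : ℝ) + 1)) / 2) := by positivity
  set κ := (2 : ℝ) ^ ((1 - ((n : ℝ) + 1)) / 2) with hκd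
  have h1 : amp n ((n : ℤ) + 1 - 2 * m) = (κ : ℂ) * ((Y n m : ℂ) + Complex.I * (X n m : ℂ)) := by
    unfold amp paths turns
    rw [Q234.FC.total_eq, ((Q234.FC.A_val n).1 m hm).1, ((Q234.FC.A_val n).1 m hm).2]
    unfold X Y
    push_cast
    linear_combination (-(κ : ℂ) * (Q234.FC.V (n - m) m : ℂ)) * Complex.I_mul_I
  rw [h1, norm_div, div_pow, norm_mul]
  have h2 : ((κ : ℂ) * ((Y n m : ℂ) + Complex.I * (X n m : ℂ))).im = κ * X n m := by
    simp
  have h3 : ‖((Y n m : ℂ) + Complex.I * (X n m : ℂ))‖ ^ 2 = X n m ^ 2 + Y n m ^ 2 := by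
    rw [← Complex.normSq_eq_norm_sq, Complex.normSq_apply]
    simp
    ring
  rw [h2, Complex.norm_real, Complex.norm_real, mul_pow, h3, Real.norm_eq_abs, Real.norm_eq_abs,
    sq_abs, sq_abs, mul_pow]
  unfold FF
  rw [mul_div_mul_left _ _ (by positivity)]

theorem FF_le_one (v u : ℝ) : 0 ≤ FF v u ∧ FF v u ≤ 1 := by
  unfold FF
  constructor
  · positivity
  · apply div_le_one_of_le₀
    · nlinarith [sq_nonneg v]
    · positivity

theorem order_eq {v : ℝ} (hv1 : v ≤ 1) (n : ℕ) :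
    order v n = 2 / ((n : ℝ) + 1) *
      ∑ m ∈ Finset.Ico (ct v n) ((n + 1) / 2 + 1), FF (Y n m) (X n m) := by
  unfold order
  rw [Finset.mul_sum]
  symm
  refine Finset.sum_bij (fun (m : ℕ) _ => (n : ℤ) + 1 - 2 * (m : ℤ)) ?_ ?_ ?_ ?_
  · intro m hm
    rw [Finset.mem_Ico] at hm
    have h1 : vel n m ≤ v := ct_le_iff.1 hm.1
    have hT : (0 : ℝ) < (n : ℝ) + 1 := by positivity
    rw [Finset.mem_filter, Finset.mem_Icc]
    refine ⟨⟨by omega, ?_⟩, ?_⟩
    · rw [Int.le_floor]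
      push_cast
      have h2 : ((n : ℝ) + 1 - 2 * m) = vel n m * ((n : ℝ) + 1) := by
        unfold vel; field_simp
      rw [h2]
      exact mul_le_mul_of_nonneg_right h1 hT.le
    · exact (Int.modEq_iff_dvd.2 ⟨m, by ring⟩)
  · intro m1 _ m2 _ h
    omega
  · intro x hx
    rw [Finset.mem_filter, Finset.mem_Icc] at hx
    obtain ⟨⟨hx0, hx1⟩, hx2⟩ := hx
    have hT : (0 : ℝ) < (n : ℝ) + 1 := by positivity
    rw [Int.le_floor] at hx1
    obtain ⟨k, hk⟩ := Int.modEq_iff_dvd.1 hx2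
    have hxn : x ≤ (n : ℤ) + 1 := by
      have : (x : ℝ) ≤ (n : ℝ) + 1 := by
        refine hx1.trans ?_
        calc v * ((n : ℝ) + 1) ≤ 1 * ((n : ℝ) + 1) := mul_le_mul_of_nonneg_right hv1 hT.le
          _ = _ := one_mul _
      exact_mod_cast this
    obtain ⟨m, hm⟩ : ∃ m : ℕ, k = (m : ℤ) := ⟨k.toNat, by omega⟩
    subst hm
    refine ⟨m, ?_, by omega⟩
    rw [Finset.mem_Ico]
    refine ⟨?_, by omega⟩
    rw [ct_le_iff]
    have h2 : vel n m = (x : ℝ) / ((n : ℝ) + 1) := by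
      have : (x : ℝ) = (n : ℝ) + 1 - 2 * m := by
        have : x = (n : ℤ) + 1 - 2 * m := by omega
        rw [this]; push_cast; ring
      rw [this]; unfold vel; field_simp
    rw [h2, div_le_iff₀ hT]
    exact hx1
  · intro m hm
    rw [Finset.mem_Ico] at hm
    rw [amp_term n m (by omega)]

theorem order_close {v : ℝ} (hv : 0 ≤ v) (hv1 : v ≤ 1) (n : ℕ) :
    ‖order v n - ravg 0 v (fun n m => FF (Y n m) (X n m)) n‖ ≤ 2 / ((n : ℝ) + 1) := by
  rw [order_eq hv1]
  unfold ravg win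
  have h1 : ct 0 n ≤ (n + 1) / 2 + 1 := by
    unfold ct
    rw [Nat.ceil_le]
    have : n + 1 ≤ 2 * ((n + 1) / 2) + 1 := by omega
    have h2 : ((n : ℝ) + 1) ≤ 2 * (((n + 1) / 2 : ℕ) : ℝ) + 1 := by exact_mod_cast this
    push_cast
    linarith
  have h2 : (n + 1) / 2 ≤ ct 0 n := by
    have h3 : ((n : ℝ) + 1) / 2 ≤ (ct 0 n : ℝ) := by
      have := Nat.le_ceil ((1 - 0) * ((n : ℝ) + 1) / 2)
      unfold ct
      linarith
    have h4 : (n : ℝ) + 1 ≤ 2 * (ct 0 n : ℝ) := by linarith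
    have h5 : n + 1 ≤ 2 * ct 0 n := by exact_mod_cast h4
    omega
  rw [← Finset.sum_Ico_consecutive _ (ct_anti hv n) h1, mul_add, add_sub_cancel_left, norm_mul,
    Real.norm_of_nonneg (by positivity)]
  have h6 : ‖∑ i ∈ Finset.Ico (ct 0 n) ((n + 1) / 2 + 1), FF (Y n i) (X n i)‖ ≤ 1 := by
    refine (norm_sum_le _ _).trans ?_
    refine (Finset.sum_le_sum (g := fun _ => (1 : ℝ)) ?_).trans ?_
    · intro i _
      rw [Real.norm_of_nonneg (FF_le_one _ _).1]
      exact (FF_le_one _ _).2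
    · rw [Finset.sum_const, nsmul_eq_mul, mul_one, Nat.card_Ico]
      have : (n + 1) / 2 + 1 - ct 0 n ≤ 1 := by omega
      exact_mod_cast this
  calc 2 / ((n : ℝ) + 1) * ‖∑ i ∈ Finset.Ico (ct 0 n) ((n + 1) / 2 + 1), FF (Y n i) (X n i)‖
      ≤ 2 / ((n : ℝ) + 1) * 1 := mul_le_mul_of_nonneg_left h6 (by positivity)
    _ = _ := mul_one _

theorem order_lim {v L : ℝ} (hv : 0 ≤ v) (hv1 : v ≤ 1)
    (h : Tendsto (ravg 0 v (fun n m => FF (Y n m) (X n m))) atTop (𝓝 L)) :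
    Tendsto (order v) atTop (𝓝 L) := by
  have h1 : Tendsto (fun n => order v n - ravg 0 v (fun n m => FF (Y n m) (X n m)) n) atTop
      (𝓝 0) := squeeze_zero_norm (order_close hv hv1) tendsto_inv_T
  have h2 := h1.add h
  rw [zero_add] at h2
  refine h2.congr fun n => ?_
  ring

/-- the proposed formula -/
noncomputable def C0 (v : ℝ) : ℝ :=
  1 / 2 * (1 + v - Real.sqrt (1 - v ^ 2) + Real.log ((1 + Real.sqrt (1 - v ^ 2)) / 2))

theorem C0_deriv {s : ℝ} (h : s ^ 2 < 1) :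
    HasDerivAt C0 (1 / 2 + s / (2 * (1 + Real.sqrt (1 - s ^ 2)))) s := by
  have hpos : 0 < 1 - s ^ 2 := by linarith
  have h1 : HasDerivAt (fun x : ℝ => 1 - x ^ 2) (-(2 * s)) s := by
    have := (hasDerivAt_pow 2 s).const_sub 1
    refine this.congr_deriv ?_
    simp
  have h2 := h1.sqrt hpos.ne'
  have hp0 : 0 < Real.sqrt (1 - s ^ 2) := Real.sqrt_pos.2 hpos
  set p := Real.sqrt (1 - s ^ 2) with hp
  have h3 : HasDerivAt (fun x : ℝ => (1 + Real.sqrt (1 - x ^ 2)) / 2)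
      (-(2 * s) / (2 * p) / 2) s := (h2.const_add 1).div_const 2
  have h4 := h3.log (by rw [← hp]; positivity)
  rw [← hp] at h4
  have h5 := ((((hasDerivAt_id s).const_add 1).sub h2).add h4).const_mul (1 / 2)
  refine h5.congr_deriv ?_
  have : (1 + p) ≠ 0 := by positivity
  field_simp
  ring

theorem G1_ne_C0 {v : ℝ} (hv : 0 < v) (hv1 : 2 * v ^ 2 < 1) : C0 v < G1 v := by
  have hmono : StrictMonoOn (fun x => G1 x - C0 x) (Icc 0 v) := by
    apply strictMonoOn_of_deriv_pos (convex_Icc 0 v)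
    · intro x hx
      have hx2 : 2 * x ^ 2 < 1 := by nlinarith [hx.1, hx.2]
      exact ((G1_deriv hx2).sub (C0_deriv (by nlinarith))).continuousAt.continuousWithinAt
    · intro x hx
      rw [interior_Icc] at hx
      have hx2 : 2 * x ^ 2 < 1 := by nlinarith [hx.1, hx.2]
      have hd := (G1_deriv hx2).sub (C0_deriv (by nlinarith : x ^ 2 < 1))
      have : deriv (fun x => G1 x - C0 x) x = _ := hd.deriv
      rw [this]
      have h1 : q x < Real.sqrt (1 - x ^ 2) := by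
        unfold q
        apply Real.sqrt_lt_sqrt (by linarith)
        have := hx.1
        nlinarith
      have h2 := q_nonneg x
      have h3 : x / (2 * (1 + Real.sqrt (1 - x ^ 2))) < x / (2 * (1 + q x)) :=
        div_lt_div_of_pos_left hx.1 (by positivity) (by linarith)
      linarith
  have h := hmono (left_mem_Icc.2 hv.le) (right_mem_Icc.2 hv.le) hv
  have h0 : C0 0 = 0 := by unfold C0; norm_num
  simp only [G1_zero, h0, sub_zero] at h
  linarith

end Q261.FK
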