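import Pool.Agent.Q261.FK.EllMain

/-!
# The hyperbolic region
-/

set_option autoImplicit false

namespace Q261.FK

open Filter Topology Set

noncomputable def ww (s : ℝ) : ℝ := Real.sqrt (2 * s ^ 2 - 1)

theorem ww_sq {s : ℝ} (h : 1 ≤ 2 * s ^ 2) : ww s ^ 2 = 2 * s ^ 2 - 1 := by
  unfold ww; rw [Real.sq_sqrt (by linarith)]

theorem ww_nonneg (s : ℝ) : 0 ≤ ww s := Real.sqrt_nonneg _

theorem ww_le {s : ℝ} (h0 : 0 ≤ s) (h1 : s ≤ 1) : ww s ≤ s := by
  unfold ww
  apply Real.sqrt_le_iff.2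
  exact ⟨h0, by nlinarith⟩

theorem ww_cont : Continuous ww := by unfold ww; fun_prop

/-- attracting slope -/
noncomputable def rp (s : ℝ) : ℝ := (s - ww s) / (1 + s)

theorem step_bounds {s τ ρ : ℝ} (hτ : 0 < τ) (hs0 : 0 < s) (hs1 : s < 1) (h : 1 ≤ 2 * s ^ 2)
    (hρ : ρ ≤ (s + τ) / (1 + (s + τ))) :
    s / (1 + s) ≤ (2 * s + τ) / (1 + s) - ρ ∧
    (3 * s ^ 2 - 1) / (1 - s ^ 2) ≤
      (2 * s / (1 - s)) * ((2 * s + τ) / (1 + s) - ρ) - (1 - τ / (1 - s)) := by
  have h1 : (s + τ) / (1 + (s + τ)) ≤ (s + τ) / (1 + s) := by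
    apply div_le_div_of_nonneg_left (by linarith) (by linarith) (by linarith)
  have h2 : s / (1 + s) ≤ (2 * s + τ) / (1 + s) - ρ := by
    have : (2 * s + τ) / (1 + s) = s / (1 + s) + (s + τ) / (1 + s) := by
      rw [← add_div]; congr 1; ring
    rw [this]; linarith
  refine ⟨h2, ?_⟩
  have h3 : 0 < 1 - s := by linarith
  have h4 : 0 < 1 + s := by linarith
  have h5 : (2 * s / (1 - s)) * (s / (1 + s)) ≤
      (2 * s / (1 - s)) * ((2 * s + τ) / (1 + s) - ρ) :=
    mul_le_mul_of_nonneg_left h2 (by positivity)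
  have h6 : (3 * s ^ 2 - 1) / (1 - s ^ 2) = (2 * s / (1 - s)) * (s / (1 + s)) - 1 := by
    have : 1 - s ^ 2 = (1 - s) * (1 + s) := by ring
    rw [this]
    field_simp
    ring
  have h7 : 0 < τ / (1 - s) := by positivity
  rw [h6]; linarith

theorem step_upper {s τ σ : ℝ} (hτ : 0 < τ) (hs0 : 0 < s) (hs1 : s < 1) (h : 1 ≤ 2 * s ^ 2)
    (hσ : s / (1 + s) ≤ σ) (hD : 0 < (2 * s / (1 - s)) * σ - (1 - τ / (1 - s))) :
    σ / ((2 * s / (1 - s)) * σ - (1 - τ / (1 - s))) ≤ s / (1 + s) := by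
  have h3 : 0 < 1 - s := by linarith
  have h4 : 0 < 1 + s := by linarith
  rw [div_le_div_iff₀ hD h4]
  have h5 : s / (1 + s) * (3 * s ^ 2 - 1) ≤ σ * (3 * s ^ 2 - 1) :=
    mul_le_mul_of_nonneg_right hσ (by linarith)
  have h6 : s * (1 - s) ≤ s / (1 + s) * (3 * s ^ 2 - 1) := by
    rw [div_mul_eq_mul_div, le_div_iff₀ h4]
    have : 0 ≤ s * (2 * (2 * s ^ 2 - 1)) := by
      apply mul_nonneg hs0.le; linarith
    nlinarith
  have h7 : 0 < s * τ := by positivity
  have e : s * ((2 * s / (1 - s)) * σ - (1 - τ / (1 - s))) - σ * (1 + s) =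
      (σ * (3 * s ^ 2 - 1) - s * (1 - s) + s * τ) / (1 - s) := by
    field_simp
    ring
  have h8 : 0 ≤ (σ * (3 * s ^ 2 - 1) - s * (1 - s) + s * τ) / (1 - s) := by
    apply div_nonneg _ h3.le
    linarith
  linarith

/-- invariance -/
theorem hyp_inv (n : ℕ) : ∀ m, 0 < vel n m → 1 ≤ 2 * (vel n m) ^ 2 →
    X n m ≠ 0 ∧ 0 ≤ -(Y n m / X n m) ∧ -(Y n m / X n m) ≤ vel n m / (1 + vel n m) := by
  intro m
  induction m with
  | zero =>
    intro _ _
    rw [X_zero, Y_zero]
    have : vel n 0 = 1 := by unfold vel; simp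
    rw [this]; norm_num
  | succ m ih =>
    intro hs0 hs2
    have hT : (0 : ℝ) < (n : ℝ) + 1 := by positivity
    have hτ : (0 : ℝ) < 2 / ((n : ℝ) + 1) := by positivity
    have hvs := vel_succ n m
    set s := vel n (m + 1) with hs
    set τ : ℝ := 2 / ((n : ℝ) + 1) with hτd
    have hsm : vel n m = s + τ := by linarith
    rw [hsm] at ih
    obtain ⟨hX, hr0, hr1⟩ := ih (by linarith) (by nlinarith)
    have hmn : m + 1 ≤ n := by
      have h1 : 0 < vel n (m + 1) := hs0
      unfold vel at h1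
      have h2 : 2 * ((m + 1 : ℕ) : ℝ) / ((n : ℝ) + 1) < 1 := by linarith
      rw [div_lt_one hT] at h2
      have h3 : 2 * (m + 1) < n + 1 := by exact_mod_cast h2
      omega
    have hs1 : s < 1 := by
      rw [hs]; unfold vel
      have : 0 < 2 * ((m + 1 : ℕ) : ℝ) / ((n : ℝ) + 1) := by positivity
      linarith
    have h3 : 0 < 1 - s := by linarith
    have h4 : 0 < 1 + s := by linarith
    set ρ := -(Y n m / X n m) with hρ
    obtain ⟨b1, b2⟩ := step_bounds hτ hs0 hs1 hs2 hr1
    set σ := (2 * s + τ) / (1 + s) - ρ with hσ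
    have hD : 0 < (2 * s / (1 - s)) * σ - (1 - τ / (1 - s)) := by
      refine lt_of_lt_of_le ?_ b2
      apply div_pos <;> nlinarith
    have hY' : Y n (m + 1) = σ * X n m := by
      rw [stepY n m hmn, ← hs]
      have : 2 / ((1 + s) * ((n : ℝ) + 1)) = τ / (1 + s) := by
        rw [hτd]; field_simp
      rw [this, hσ, hρ]
      field_simp
      ring
    have hX' : X n (m + 1) = -((2 * s / (1 - s)) * σ - (1 - τ / (1 - s))) * X n m := by
      rw [stepX n m hmn, ← hs, hY']
      have : 2 / ((1 - s) * ((n : ℝ) + 1)) = τ / (1 - s) := by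
        rw [hτd]; field_simp
      rw [this]
      ring
    have hrat : -(Y n (m + 1) / X n (m + 1)) = σ / ((2 * s / (1 - s)) * σ - (1 - τ / (1 - s))) := by
      rw [hY', hX']
      have hD' := hD.ne'
      rw [neg_mul, div_neg, neg_neg, mul_div_mul_right _ _ hX]
    refine ⟨?_, ?_, ?_⟩
    · rw [hX']
      exact mul_ne_zero (neg_ne_zero.2 hD.ne') hX
    · rw [hrat]
      have : 0 < σ := lt_of_lt_of_le (by positivity) b1
      positivity
    · rw [hrat]
      exact step_upper hτ hs0 hs1 hs2 b1 hD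

/-- the slope -/
noncomputable def rho (n m : ℕ) : ℝ := -(Y n m / X n m)

/-- the step for the slope -/
theorem rho_step (n m : ℕ) (hs0 : 0 < vel n (m + 1)) (hs2 : 1 ≤ 2 * (vel n (m + 1)) ^ 2) :
    |rho n (m + 1) - rp (vel n (m + 1))| ≤
      (|rho n m - rp (vel n (m + 1))| + 2 / ((n : ℝ) + 1) * (1 + 1 / (1 - vel n (m + 1)))) /
        ((3 * (vel n (m + 1)) ^ 2 - 1) / (1 - (vel n (m + 1)) ^ 2)) ^ 2 := by
  have hT : (0 : ℝ) < (n : ℝ) + 1 := by positivity
  have hτ : (0 : ℝ) < 2 / ((n : ℝ) + 1) := by positivity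
  have hvs := vel_succ n m
  have hinv := hyp_inv n m
  set s := vel n (m + 1) with hs
  set τ : ℝ := 2 / ((n : ℝ) + 1) with hτd
  have hsm : vel n m = s + τ := by linarith
  rw [hsm] at hinv
  obtain ⟨hX, hr0, hr1⟩ := hinv (by linarith) (by nlinarith)
  have hmn : m + 1 ≤ n := by
    have h1 : 0 < vel n (m + 1) := hs0
    unfold vel at h1
    have h2 : 2 * ((m + 1 : ℕ) : ℝ) / ((n : ℝ) + 1) < 1 := by linarith
    rw [div_lt_one hT] at h2
    have h3 : 2 * (m + 1) < n + 1 := by exact_mod_cast h2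
    omega
  have hs1 : s < 1 := by
    rw [hs]; unfold vel
    have : 0 < 2 * ((m + 1 : ℕ) : ℝ) / ((n : ℝ) + 1) := by positivity
    linarith
  have h3 : 0 < 1 - s := by linarith
  have h4 : 0 < 1 + s := by linarith
  change 0 ≤ rho n m at hr0
  change rho n m ≤ _ at hr1
  set ρ := rho n m with hρ
  obtain ⟨b1, b2⟩ := step_bounds hτ hs0 hs1 hs2 hr1
  set σ := (2 * s + τ) / (1 + s) - ρ with hσ
  have hD0 : 0 < (3 * s ^ 2 - 1) / (1 - s ^ 2) := by
    apply div_pos <;> nlinarith
  set D := (3 * s ^ 2 - 1) / (1 - s ^ 2) with hDd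
  have hD : 0 < (2 * s / (1 - s)) * σ - (1 - τ / (1 - s)) := lt_of_lt_of_le hD0 b2
  have hY' : Y n (m + 1) = σ * X n m := by
    rw [stepY n m hmn, ← hs]
    have : 2 / ((1 + s) * ((n : ℝ) + 1)) = τ / (1 + s) := by
      rw [hτd]; field_simp
    rw [this, hσ, hρ]
    unfold rho
    field_simp
    ring
  have hX' : X n (m + 1) = -((2 * s / (1 - s)) * σ - (1 - τ / (1 - s))) * X n m := by
    rw [stepX n m hmn, ← hs, hY']
    have : 2 / ((1 - s) * ((n : ℝ) + 1)) = τ / (1 - s) := by
      rw [hτd]; field_simp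
    rw [this]
    ring
  have hrat : rho n (m + 1) = σ / ((2 * s / (1 - s)) * σ - (1 - τ / (1 - s))) := by
    unfold rho
    rw [hY', hX', neg_mul, div_neg, neg_neg, mul_div_mul_right _ _ hX]
  -- the attracting point
  have hw0 := ww_nonneg s
  have hw1 := ww_le hs0.le hs1.le
  have hwsq := ww_sq hs2
  set w := ww s with hw
  set σp := (s + w) / (1 + s) with hσp
  have hσp1 : σp ≤ 1 := by
    rw [hσp, div_le_one h4]; linarith
  have hσp0 : 0 ≤ σp := by positivity
  have hDp : D ≤ (2 * s / (1 - s)) * σp - 1 := by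
    have e : (2 * s / (1 - s)) * σp - 1 - D = 2 * s * w / ((1 - s) * (1 + s)) := by
      rw [hDd, hσp]
      have : 1 - s ^ 2 = (1 - s) * (1 + s) := by ring
      rw [this]
      field_simp
      ring
    have : 0 ≤ 2 * s * w / ((1 - s) * (1 + s)) := by positivity
    linarith
  have hDp0 : 0 < (2 * s / (1 - s)) * σp - 1 := lt_of_lt_of_le hD0 hDp
  have hfix : rp s = σp / ((2 * s / (1 - s)) * σp - 1) := by
    rw [eq_div_iff hDp0.ne']
    unfold rp
    rw [← hw, hσp]
    field_simp
    linear_combination (-(2 * s)) * hwsq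
  have hdiff : rho n (m + 1) - rp s = (σ * ((2 * s / (1 - s)) * σp - 1) -
      ((2 * s / (1 - s)) * σ - (1 - τ / (1 - s))) * σp) /
      (((2 * s / (1 - s)) * σ - (1 - τ / (1 - s))) * ((2 * s / (1 - s)) * σp - 1)) := by
    rw [hrat, hfix, div_sub_div _ _ hD.ne' hDp0.ne']
  rw [hdiff, abs_div, abs_of_pos (mul_pos hD hDp0)]
  have hnum : |σ * ((2 * s / (1 - s)) * σp - 1) -
      ((2 * s / (1 - s)) * σ - (1 - τ / (1 - s))) * σp| ≤
      |ρ - rp s| + τ * (1 + 1 / (1 - s)) := by
    have e : σ * ((2 * s / (1 - s)) * σp - 1) -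
      ((2 * s / (1 - s)) * σ - (1 - τ / (1 - s))) * σp =
      (ρ - rp s) - τ * (1 / (1 + s)) - τ * (1 / (1 - s)) * σp := by
      have : rp s = 2 * s / (1 + s) - σp := by
        unfold rp; rw [← hw, hσp]; field_simp; ring
      rw [this, hσ]
      field_simp
      ring
    rw [e]
    have k1 : 0 ≤ τ * (1 / (1 + s)) ∧ τ * (1 / (1 + s)) ≤ τ := by
      refine ⟨by positivity, ?_⟩
      calc τ * (1 / (1 + s)) ≤ τ * 1 := by
            apply mul_le_mul_of_nonneg_left _ hτ.le
            rw [div_le_one h4]; linarith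
        _ = τ := mul_one _
    have k2 : 0 ≤ τ * (1 / (1 - s)) * σp ∧ τ * (1 / (1 - s)) * σp ≤ τ * (1 / (1 - s)) := by
      refine ⟨by positivity, ?_⟩
      calc τ * (1 / (1 - s)) * σp ≤ τ * (1 / (1 - s)) * 1 :=
            mul_le_mul_of_nonneg_left hσp1 (by positivity)
        _ = _ := mul_one _
    have k3 := le_abs_self (ρ - rp s)
    have k4 := neg_abs_le (ρ - rp s)
    rw [abs_le]
    constructor <;> linarith [k1.1, k1.2, k2.1, k2.2]
  apply div_le_div₀ _ hnum (by positivity)
  · rw [sq]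
    exact mul_le_mul b2 hDp hD0.le hD.le
  · have : 0 < 1 / (1 - s) := by positivity
    positivity


theorem rho_mem (n m : ℕ) (h0 : 0 < vel n m) (h : 1 ≤ 2 * (vel n m) ^ 2) :
    0 ≤ rho n m ∧ rho n m ≤ 1 / 2 := by
  obtain ⟨_, h1, h2⟩ := hyp_inv n m h0 h
  refine ⟨h1, h2.trans ?_⟩
  have hle : vel n m ≤ 1 := by
    unfold vel
    have : 0 ≤ 2 * (m : ℝ) / ((n : ℝ) + 1) := by positivity
    linarith
  rw [div_le_div_iff₀ (by linarith) (by norm_num)]
  linarith

theorem rp_mem {s : ℝ} (h0 : 0 < s) (h1 : s ≤ 1) : 0 ≤ rp s ∧ rp s ≤ 1 / 2 := by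
  unfold rp
  have := ww_nonneg s
  have := ww_le h0.le h1
  constructor
  · apply div_nonneg <;> linarith
  · rw [div_le_div_iff₀ (by linarith) (by norm_num)]
    linarith

theorem FF_rho {n m : ℕ} (hX : X n m ≠ 0) : FF (Y n m) (X n m) = 1 / (1 + rho n m ^ 2) := by
  unfold FF rho
  have h2 : X n m ^ 2 + Y n m ^ 2 ≠ 0 := by
    have : 0 < X n m ^ 2 := by positivity
    positivity
  field_simp

theorem inv_lip {x y : ℝ} (hx0 : 0 ≤ x) (hx : x ≤ 1 / 2) (hy0 : 0 ≤ y) (hy : y ≤ 1 / 2) :
    |1 / (1 + x ^ 2) - 1 / (1 + y ^ 2)| ≤ |x - y| := by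
  have h1 : (0 : ℝ) < 1 + x ^ 2 := by positivity
  have h2 : (0 : ℝ) < 1 + y ^ 2 := by positivity
  rw [div_sub_div _ _ h1.ne' h2.ne', abs_div, abs_of_pos (mul_pos h1 h2),
    div_le_iff₀ (mul_pos h1 h2)]
  have e : 1 * (1 + y ^ 2) - (1 + x ^ 2) * 1 = -((x - y) * (x + y)) := by ring
  rw [e, abs_neg, abs_mul]
  apply mul_le_mul_of_nonneg_left _ (abs_nonneg _)
  rw [abs_of_nonneg (by linarith)]
  nlinarith [sq_nonneg x, sq_nonneg y, mul_nonneg (sq_nonneg x) (sq_nonneg y)]

theorem rp_ucont : UniformContinuousOn rp (Icc (0 : ℝ) 1) := by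
  apply isCompact_Icc.uniformContinuousOn_of_continuous
  unfold rp
  apply ContinuousOn.div
  · exact (continuous_id.sub ww_cont).continuousOn
  · exact (continuous_const.add continuous_id).continuousOn
  · intro x hx
    have := hx.1
    positivity

/-- the deviation from the attracting slope is zero on average -/
theorem hyp_avg {a b : ℝ} (ha0 : 0 < a) (ha : 1 < 2 * a ^ 2) (hab : a ≤ b) (hb : b < 1) :
    Tendsto (ravg a b (fun n m => |rho n m - rp (vel n m)|)) atTop (𝓝 0) := by
  set D := (3 * a ^ 2 - 1) / (1 - a ^ 2) with hD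
  have ha1 : 0 < 1 - a ^ 2 := by nlinarith
  have hD1 : 1 < D := by rw [hD, lt_div_iff₀ ha1]; linarith
  have hD2 : 1 < D ^ 2 := by nlinarith
  set θ : ℝ := 1 / D ^ 2 with hθ
  have hθ0 : 0 < θ := by positivity
  have hθ1 : θ < 1 := by rw [hθ, div_lt_one (by positivity)]; exact hD2
  rw [Metric.tendsto_atTop]
  intro ε hε
  set η : ℝ := ε * (1 - θ) / 16 with hη
  have hη0 : 0 < η := by
    have : 0 < 1 - θ := by linarith
    positivity
  have huc := rp_ucont
  rw [Metric.uniformContinuousOn_iff] at huc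
  obtain ⟨δ₁, hδ₁, hu⟩ := huc η hη0
  set C : ℝ := 1 + 1 / (1 - b) with hC
  have hC0 : 0 < C := by
    have : 0 < 1 / (1 - b) := by apply div_pos <;> linarith
    linarith
  have e2 := (Metric.tendsto_nhds.1 tendsto_inv_T) (min δ₁ (min 1 (min (η / (C + 1)) η)))
    (by positivity)
  rw [eventually_atTop] at e2
  obtain ⟨N, hN⟩ := e2
  refine ⟨N, fun n hn => ?_⟩
  have hτ : (0 : ℝ) < 2 / ((n : ℝ) + 1) := by positivity
  have h1 := hN n hn
  rw [Real.dist_eq, sub_zero, abs_of_pos hτ, lt_min_iff, lt_min_iff, lt_min_iff] at h1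
  obtain ⟨h1a, h1b, h1c, h1d⟩ := h1
  set τ : ℝ := 2 / ((n : ℝ) + 1) with hτd
  rw [Real.dist_eq, sub_zero]
  set d : ℕ → ℝ := fun m => |rho n m - rp (vel n m)| with hd
  have hd0 : ∀ m, 0 ≤ d m := fun m => abs_nonneg _
  have hrav : ravg a b (fun n m => |rho n m - rp (vel n m)|) n =
      τ * ∑ m ∈ Finset.Ico (ct b n) (ct a n), d m := rfl
  rw [hrav, abs_of_nonneg (mul_nonneg hτ.le (Finset.sum_nonneg fun _ _ => hd0 _))]
  rcases Nat.lt_or_ge (ct b n) (ct a n) with hlt | hge
  · obtain ⟨r, hr⟩ : ∃ r, ct a n = r + 1 := ⟨ct a n - 1, by omega⟩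
    have hbr : ct b n ≤ r := by omega
    set S := ∑ m ∈ Finset.Ico (ct b n) (ct a n), d m with hS
    have hstep : ∀ m ∈ Finset.Ico (ct b n) r, d (m + 1) ≤ θ * d m + 2 * η := by
      intro m hm
      rw [Finset.mem_Ico] at hm
      have hm1 : vel n m ≤ b := ct_le_iff.1 hm.1
      have hm2 : a < vel n (m + 1) := lt_ct_iff.1 (by omega)
      have hvs := vel_succ n m
      rw [← hτd] at hvs
      have hs2 : 1 ≤ 2 * (vel n (m + 1)) ^ 2 := by nlinarith
      have hst := rho_step n m (by linarith) hs2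
      rw [← hτd] at hst
      set s := vel n (m + 1) with hs
      have hsb : s ≤ b := by linarith
      have has2 : a ^ 2 ≤ s ^ 2 := pow_le_pow_left₀ ha0.le hm2.le 2
      have hs21 : 0 < 1 - s ^ 2 := by
        have : s ^ 2 ≤ b ^ 2 := pow_le_pow_left₀ (by linarith) hsb 2
        have : b ^ 2 < 1 := by
          have h0b : 0 < b := by linarith
          calc b ^ 2 = b * b := sq b
            _ < 1 * 1 := mul_lt_mul'' hb hb h0b.le h0b.le
            _ = 1 := one_mul 1
        linarith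
      have hDs : D ≤ (3 * s ^ 2 - 1) / (1 - s ^ 2) := by
        rw [hD]
        exact div_le_div₀ (by linarith) (by linarith) hs21 (by linarith)
      have hD0 : 0 < D := by linarith
      have hDs2 : D ^ 2 ≤ ((3 * s ^ 2 - 1) / (1 - s ^ 2)) ^ 2 := pow_le_pow_left₀ hD0.le hDs 2
      have hnum0 : 0 ≤ |rho n m - rp s| + τ * (1 + 1 / (1 - s)) := by
        have : 0 < 1 / (1 - s) := by apply div_pos <;> linarith
        positivity
      have hst2 : d (m + 1) ≤ θ * (|rho n m - rp s| + τ * (1 + 1 / (1 - s))) := by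
        refine hst.trans ?_
        rw [hθ, one_div_mul_eq_div]
        exact div_le_div_of_nonneg_left hnum0 (by positivity) hDs2
      have t1 : |rho n m - rp s| ≤ d m + η := by
        have t2 : rho n m - rp s = (rho n m - rp (vel n m)) + (rp (vel n m) - rp s) := by ring
        rw [t2]
        refine (abs_add_le _ _).trans ?_
        apply add_le_add le_rfl
        have := hu (vel n m) ⟨by linarith, by linarith⟩ s ⟨by linarith, by linarith⟩ (by
          rw [Real.dist_eq, hvs, show vel n m - (vel n m - τ) = τ by ring, abs_of_pos hτ]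
          exact h1a)
        rw [Real.dist_eq] at this
        exact this.le
      have t3 : τ * (1 + 1 / (1 - s)) ≤ η := by
        calc τ * (1 + 1 / (1 - s)) ≤ τ * (C + 1) := by
              apply mul_le_mul_of_nonneg_left _ hτ.le
              have : 1 / (1 - s) ≤ 1 / (1 - b) := by
                apply one_div_le_one_div_of_le <;> linarith
              rw [hC]; linarith
          _ ≤ η / (C + 1) * (C + 1) := mul_le_mul_of_nonneg_right h1c.le (by linarith)
          _ = η := by field_simp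
      calc d (m + 1) ≤ θ * (|rho n m - rp s| + τ * (1 + 1 / (1 - s))) := hst2
        _ ≤ θ * (d m + η + η) := mul_le_mul_of_nonneg_left (by linarith) hθ0.le
        _ = θ * d m + θ * (2 * η) := by ring
        _ ≤ θ * d m + 1 * (2 * η) :=
            add_le_add le_rfl (mul_le_mul_of_nonneg_right hθ1.le (by linarith))
        _ = θ * d m + 2 * η := by ring
    have hfirst : d (ct b n) ≤ 1 := by
      have q1 : a < vel n (ct b n) := lt_ct_iff.1 hlt
      have q2 : vel n (ct b n) ≤ b := ct_le_iff.1 le_rfl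
      have r1 := rho_mem n (ct b n) (by linarith) (by nlinarith)
      have r2 := rp_mem (s := vel n (ct b n)) (by linarith) (by linarith)
      rw [hd]
      simp only
      rw [abs_le]
      constructor <;> linarith [r1.1, r1.2, r2.1, r2.2]
    have hSsplit : S = d (ct b n) + ∑ m ∈ Finset.Ico (ct b n) r, d (m + 1) := by
      rw [hS, hr, Finset.sum_Ico_add' (f := d) (c := 1), ← Finset.sum_Ico_consecutive d
        (Nat.le_succ (ct b n)) (by omega)]
      simp
    have hSr : ∑ m ∈ Finset.Ico (ct b n) r, d m ≤ S := by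
      rw [hS, hr, Finset.sum_Ico_succ_top hbr]
      linarith [hd0 r]
    have hcardr : τ * ((Finset.Ico (ct b n) r).card : ℝ) ≤ 2 := by
      have h5 : τ * ((Finset.Ico (ct b n) r).card : ℝ) ≤ τ * ((win a b n).card : ℝ) := by
        apply mul_le_mul_of_nonneg_left _ hτ.le
        unfold win
        rw [Nat.card_Ico, Nat.card_Ico]
        have : r - ct b n ≤ ct a n - ct b n := by omega
        exact_mod_cast this
      have h6 := card_win hab hb.le n
      linarith
    have hSle : S ≤ 1 + (θ * S + ((Finset.Ico (ct b n) r).card : ℝ) * (2 * η)) := by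
      have h7 := Finset.sum_le_sum hstep
      rw [Finset.sum_add_distrib, ← Finset.mul_sum, Finset.sum_const, nsmul_eq_mul] at h7
      have h8 := mul_le_mul_of_nonneg_left hSr hθ0.le
      linarith
    have hfin : τ * S * (1 - θ) ≤ η + 4 * η := by
      have h9 : τ * S * (1 - θ) ≤ τ * (1 + ((Finset.Ico (ct b n) r).card : ℝ) * (2 * η)) := by
        have h14 := mul_le_mul_of_nonneg_left hSle hτ.le
        have h15 : τ * S * (1 - θ) = τ * S - τ * (θ * S) := by ring
        rw [h15]
        linarith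
      have h10 : τ * ((Finset.Ico (ct b n) r).card : ℝ) * (2 * η) ≤ 2 * (2 * η) :=
        mul_le_mul_of_nonneg_right hcardr (by positivity)
      have h16 : τ * (1 + ((Finset.Ico (ct b n) r).card : ℝ) * (2 * η)) =
          τ + τ * ((Finset.Ico (ct b n) r).card : ℝ) * (2 * η) := by ring
      rw [h16] at h9
      linarith
    have hpos : 0 < 1 - θ := by linarith
    have : τ * S < ε := by
      by_contra hcon
      have h11 : ε ≤ τ * S := not_lt.1 hcon
      have h12 : ε * (1 - θ) ≤ τ * S * (1 - θ) := mul_le_mul_of_nonneg_right h11 hpos.le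
      have h13 : 16 * η = ε * (1 - θ) := by rw [hη]; ring
      linarith
    exact this
  · rw [Finset.Ico_eq_empty_of_le hge]
    simpa using hε

/-- density in the hyperbolic region -/
noncomputable def hh2 (a s : ℝ) : ℝ := 1 / 2 + (1 + ww (max a s)) / (4 * max a s)

theorem hh2_cont {a : ℝ} (ha : 0 < a) : Continuous (hh2 a) := by
  unfold hh2
  apply continuous_const.add
  apply Continuous.div
  · exact continuous_const.add (ww_cont.comp (continuous_const.max continuous_id))
  · exact continuous_const.mul (continuous_const.max continuous_id)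
  · intro s
    have : a ≤ max a s := le_max_left _ _
    have : 0 < max a s := by linarith
    positivity

theorem hh2_eq {a s : ℝ} (has : a ≤ s) (h0 : 0 < s) (h : 1 ≤ 2 * s ^ 2) :
    hh2 a s = 1 / (1 + rp s ^ 2) := by
  unfold hh2 rp
  rw [max_eq_right has]
  have h1 := ww_sq h
  have h2 := ww_nonneg s
  have h3 : (1 + s) ^ 2 + (s - ww s) ^ 2 ≠ 0 := by positivity
  field_simp
  linear_combination (2 * ww s + 2) * h1

noncomputable def G2 (v : ℝ) : ℝ :=
  v / 2 + (1 / 4) * (1 - Real.log 2 / 2 + Real.log v + Real.sqrt (2 * v ^ 2 - 1) -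
    Real.arctan (Real.sqrt (2 * v ^ 2 - 1)))

theorem G2_deriv {s : ℝ} (h0 : 0 < s) (h : 1 < 2 * s ^ 2) :
    HasDerivAt G2 (1 / 2 + (1 + ww s) / (4 * s)) s := by
  have hpos : 0 < 2 * s ^ 2 - 1 := by linarith
  have h1 : HasDerivAt (fun x : ℝ => 2 * x ^ 2 - 1) (4 * s) s := by
    have := ((hasDerivAt_pow 2 s).const_mul 2).sub_const 1
    refine this.congr_deriv ?_
    simp; ring
  have h2 := h1.sqrt hpos.ne'
  have hq : Real.sqrt (2 * s ^ 2 - 1) = ww s := rfl
  rw [hq] at h2
  have hw0 : 0 < ww s := Real.sqrt_pos.2 hpos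
  have hwsq := ww_sq h.le
  have h3 := h2.arctan
  rw [hq] at h3
  have h4 := Real.hasDerivAt_log h0.ne'
  have h5 := ((hasDerivAt_id s).div_const 2).add
    ((((h4.const_add (1 - Real.log 2 / 2)).add h2).sub h3).const_mul (1 / 4))
  refine h5.congr_deriv ?_
  rw [hwsq]
  field_simp
  linear_combination (-4 * s ^ 2) * hwsq


theorem hyp_limit {a b : ℝ} (ha0 : 0 < a) (ha : 1 < 2 * a ^ 2) (hab : a ≤ b) (hb : b < 1) :
    Tendsto (ravg a b (fun n m => FF (Y n m) (X n m))) atTop (𝓝 (G2 b - G2 a)) := by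
  have h1 := hyp_avg ha0 ha hab hb
  have h2 := riemann (by linarith) hab hb.le (hh2 a) (fun x => ∫ s in a..x, hh2 a s)
    (hh2_cont ha0)
    (fun x => by
      apply intervalIntegral.integral_hasDerivAt_right
      · exact (hh2_cont ha0).intervalIntegrable _ _
      · exact (hh2_cont ha0).stronglyMeasurableAtFilter _ _
      · exact (hh2_cont ha0).continuousAt)
  have hint : ∫ s in a..b, hh2 a s = G2 b - G2 a := by
    apply intervalIntegral.integral_eq_sub_of_hasDerivAt
    · intro x hx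
      rw [uIcc_of_le hab] at hx
      have := G2_deriv (s := x) (by linarith [hx.1]) (by nlinarith [hx.1, hx.2])
      unfold hh2
      rw [max_eq_right hx.1]
      exact this
    · exact (hh2_cont ha0).intervalIntegrable _ _
  rw [hint] at h2
  simp only [intervalIntegral.integral_same, sub_zero] at h2
  have h3 : Tendsto (fun n => ravg a b (fun n m => FF (Y n m) (X n m)) n -
      ravg a b (fun n m => hh2 a (vel n m)) n) atTop (𝓝 0) := by
    apply squeeze_zero_norm _ h1
    intro n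
    have e : ravg a b (fun n m => FF (Y n m) (X n m)) n -
      ravg a b (fun n m => hh2 a (vel n m)) n =
      (2 / ((n : ℝ) + 1)) * ∑ m ∈ win a b n, (FF (Y n m) (X n m) - hh2 a (vel n m)) := by
      unfold ravg
      rw [Finset.sum_sub_distrib]; ring
    rw [e, norm_mul, Real.norm_of_nonneg (by positivity)]
    unfold ravg
    apply mul_le_mul_of_nonneg_left _ (by positivity)
    refine (norm_sum_le _ _).trans ?_
    apply Finset.sum_le_sum
    intro m hm
    obtain ⟨hm1, hm2⟩ := mem_win.1 hm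
    have hs0 : 0 < vel n m := by linarith
    have hs2 : 1 ≤ 2 * (vel n m) ^ 2 := by nlinarith
    obtain ⟨hX, _, _⟩ := hyp_inv n m hs0 hs2
    rw [FF_rho hX, hh2_eq hm1.le hs0 hs2, Real.norm_eq_abs]
    obtain ⟨r1, r2⟩ := rho_mem n m hs0 hs2
    obtain ⟨r3, r4⟩ := rp_mem hs0 (by linarith : vel n m ≤ 1)
    exact inv_lip r1 r2 r3 r4
  have h4 := h3.add h2
  rw [zero_add] at h4
  refine h4.congr fun n => ?_
  ring

/-- the critical velocity -/
noncomputable def cc : ℝ := 1 / Real.sqrt 2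

theorem cc_pos : 0 < cc := by unfold cc; positivity

theorem cc_sq : 2 * cc ^ 2 = 1 := by
  unfold cc
  rw [div_pow, Real.sq_sqrt (by norm_num)]
  norm_num

theorem G12 : G1 cc = G2 cc := by
  have h1 : Real.log cc = -(Real.log 2 / 2) := by
    unfold cc
    rw [Real.log_div (by norm_num) (by positivity), Real.log_sqrt (by norm_num)]
    simp
  unfold G1 G2
  rw [cc_sq, h1]
  simp
  ring

theorem full_limit {v : ℝ} (hv : cc < v) (hv1 : v < 1) :
    Tendsto (ravg 0 v (fun n m => FF (Y n m) (X n m))) atTop (𝓝 (G2 v)) := by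
  have hc0 := cc_pos
  have hcs := cc_sq
  have hG1c : ContinuousAt G1 cc := by
    have : Continuous (fun v : ℝ => 1 - Real.sqrt (1 - 2 * v ^ 2)) := by fun_prop
    unfold G1
    apply ContinuousAt.add
    · fun_prop
    · apply ContinuousAt.mul continuousAt_const
      apply ContinuousAt.add
      · exact this.continuousAt
      · apply ContinuousAt.log
        · fun_prop
        · have := Real.sqrt_nonneg (1 - 2 * cc ^ 2)
          positivity
  have hG2c : ContinuousAt G2 cc := by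
    unfold G2
    have h1 : ContinuousAt Real.log cc := Real.continuousAt_log hc0.ne'
    have h2 : Continuous (fun v : ℝ => Real.arctan (Real.sqrt (2 * v ^ 2 - 1))) :=
      Real.continuous_arctan.comp (by fun_prop)
    have h3 : Continuous (fun v : ℝ => Real.sqrt (2 * v ^ 2 - 1)) := by fun_prop
    have h4 : ContinuousAt (fun v : ℝ => v / 2) cc := by fun_prop
    exact h4.add (continuousAt_const.mul (((continuousAt_const.add h1).add
      h3.continuousAt).sub h2.continuousAt))
  rw [Metric.tendsto_atTop]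
  intro ε hε
  rw [Metric.continuousAt_iff] at hG1c hG2c
  obtain ⟨δ1, hδ1, k1⟩ := hG1c (ε / 8) (by positivity)
  obtain ⟨δ2, hδ2, k2⟩ := hG2c (ε / 8) (by positivity)
  set δ : ℝ := min (min δ1 δ2) (min (ε / 16) (min (v - cc) cc)) / 2 with hδ
  have hδ0 : 0 < δ := by
    rw [hδ]
    have : 0 < v - cc := by linarith
    positivity
  have hm1 : 2 * δ ≤ δ1 := by
    rw [hδ]
    have := (min_le_left (min δ1 δ2) (min (ε / 16) (min (v - cc) cc))).trans (min_le_left _ _)
    linarith
  have hm2 : 2 * δ ≤ δ2 := by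
    rw [hδ]
    have := (min_le_left (min δ1 δ2) (min (ε / 16) (min (v - cc) cc))).trans (min_le_right _ _)
    linarith
  have hm3 : 2 * δ ≤ ε / 16 := by
    rw [hδ]
    have := (min_le_right (min δ1 δ2) (min (ε / 16) (min (v - cc) cc))).trans (min_le_left _ _)
    linarith
  have hm4 : 2 * δ ≤ v - cc := by
    rw [hδ]
    have := (min_le_right (min δ1 δ2) (min (ε / 16) (min (v - cc) cc))).trans
      ((min_le_right _ _).trans (min_le_left _ _))
    linarith
  have hm5 : 2 * δ ≤ cc := by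
    rw [hδ]
    have := (min_le_right (min δ1 δ2) (min (ε / 16) (min (v - cc) cc))).trans
      ((min_le_right _ _).trans (min_le_right _ _))
    linarith
  set b1 := cc - δ with hb1
  set b2 := cc + δ with hb2
  have g1 : |G1 b1 - G1 cc| < ε / 8 := by
    have h0 : dist b1 cc < δ1 := by
      rw [Real.dist_eq, hb1, show cc - δ - cc = -δ by ring, abs_neg, abs_of_pos hδ0]
      linarith
    have := k1 h0
    rwa [Real.dist_eq] at this
  have g2 : |G2 b2 - G2 cc| < ε / 8 := by
    have h0 : dist b2 cc < δ2 := by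
      rw [Real.dist_eq, hb2, show cc + δ - cc = δ by ring, abs_of_pos hδ0]
      linarith
    have := k2 h0
    rwa [Real.dist_eq] at this
  have hb10 : 0 ≤ b1 := by linarith
  have hb12 : 2 * b1 ^ 2 < 1 := by nlinarith
  have hb22 : 1 < 2 * b2 ^ 2 := by nlinarith
  have l1 := ell_limit hb10 hb12
  have l2 := hyp_limit (by linarith) hb22 (by linarith : b2 ≤ v) hv1
  have e1 := (Metric.tendsto_nhds.1 l1) (ε / 8) (by positivity)
  have e2 := (Metric.tendsto_nhds.1 l2) (ε / 8) (by positivity)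
  have e3 := (Metric.tendsto_nhds.1 tendsto_inv_T) (ε / 8) (by positivity)
  have e := (e1.and e2).and e3
  rw [eventually_atTop] at e
  obtain ⟨N, hN⟩ := e
  refine ⟨N, fun n hn => ?_⟩
  obtain ⟨⟨h1, h2⟩, h3⟩ := hN n hn
  have hτ : (0 : ℝ) < 2 / ((n : ℝ) + 1) := by positivity
  rw [Real.dist_eq, sub_zero, abs_of_pos hτ] at h3
  rw [Real.dist_eq] at h1 h2 ⊢
  have s1 := ravg_split (by linarith : (0 : ℝ) ≤ b1) (by linarith : b1 ≤ v)
    (fun n m => FF (Y n m) (X n m)) n
  have s2 := ravg_split (by linarith : b1 ≤ b2) (by linarith : b2 ≤ v)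
    (fun n m => FF (Y n m) (X n m)) n
  have m1 : 0 ≤ ravg b1 b2 (fun n m => FF (Y n m) (X n m)) n := by
    apply ravg_nonneg
    intro m _ _
    unfold FF; positivity
  have m2 : ravg b1 b2 (fun n m => FF (Y n m) (X n m)) n ≤ b2 - b1 + 2 / ((n : ℝ) + 1) := by
    have h5 : ravg b1 b2 (fun n m => FF (Y n m) (X n m)) n ≤ ravg b1 b2 (fun _ _ => (1 : ℝ)) n := by
      apply ravg_mono
      intro m _ _
      unfold FF
      apply div_le_one_of_le₀
      · nlinarith [sq_nonneg (Y n m)]
      · positivity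
    have h6 := ravg_const (by linarith : b1 ≤ b2) (by linarith : b2 ≤ 1) (zero_le_one' ℝ) n
    rw [mul_one] at h6
    exact h5.trans h6
  have hG := G12
  rw [s1, s2]
  rw [abs_lt] at g1 g2 h1 h2 ⊢
  constructor <;> linarith [g1.1, g1.2, g2.1, g2.2, h1.1, h1.2, h2.1, h2.2]

end Q261.FK
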