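import Pool.Agent.Q261.FK.Win

/-!
# Vanishing of averages along slowly varying rotations
-/

set_option autoImplicit false

namespace Q261.FK

open Filter Topology Set

/-- the error kernel -/
noncomputable def ker (E : ℝ → ℂ) (ε : ℝ) (s : ℝ) : ℝ := ε / (‖E s - 1‖ ^ 2 + ε)

theorem ker_cont {E : ℝ → ℂ} (hE : Continuous E) {ε : ℝ} (hε : 0 < ε) :
    Continuous (ker E ε) := by
  unfold ker
  apply Continuous.div continuous_const
  · fun_prop
  · intro s; positivity

theorem ker_integral {a b : ℝ} {E : ℝ → ℂ} (hab : a ≤ b) (hE : Continuous E)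
    (hfin : {s ∈ Icc a b | E s = 1}.Finite) :
    Tendsto (fun ε => ∫ s in a..b, ker E ε s) (𝓝[>] 0) (𝓝 0) := by
  have h0 : 𝓝 (0 : ℝ) = 𝓝 (∫ s in a..b, (0 : ℝ)) := by simp
  rw [h0]
  apply intervalIntegral.tendsto_integral_filter_of_dominated_convergence (fun _ => (1 : ℝ))
  · filter_upwards [self_mem_nhdsWithin] with ε hε
    exact (ker_cont hE hε).aestronglyMeasurable
  · filter_upwards [self_mem_nhdsWithin] with ε hε
    refine Eventually.of_forall fun s _ => ?_
    have hε' : (0 : ℝ) < ε := hε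
    unfold ker
    rw [Real.norm_of_nonneg (by positivity), div_le_one (by positivity)]
    have : 0 ≤ ‖E s - 1‖ ^ 2 := by positivity
    linarith
  · exact intervalIntegrable_const
  · have hn : ∀ᵐ s ∂MeasureTheory.volume, s ∉ {s ∈ Icc a b | E s = 1} :=
      (MeasureTheory.compl_mem_ae_iff.2 (hfin.measure_zero _))
    filter_upwards [hn] with s hs hs2
    rw [uIoc_of_le hab] at hs2
    have hne : E s ≠ 1 := fun h => hs ⟨⟨hs2.1.le, hs2.2⟩, h⟩
    have hpos : 0 < ‖E s - 1‖ ^ 2 := by
      have : 0 < ‖E s - 1‖ := norm_pos_iff.2 (sub_ne_zero.2 hne)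
      positivity
    have h1 : Tendsto (fun ε : ℝ => ε / (‖E s - 1‖ ^ 2 + ε)) (𝓝 0)
        (𝓝 (0 / (‖E s - 1‖ ^ 2 + 0))) := by
      apply Tendsto.div tendsto_id
      · exact tendsto_const_nhds.add tendsto_id
      · rw [add_zero]; exact hpos.ne'
    rw [zero_div] at h1
    exact h1.mono_left nhdsWithin_le_nhds

theorem bdd_of_cont {G : Type*} [NormedAddCommGroup G] {f : ℝ → G} (hf : Continuous f) :
    ∃ C, 0 ≤ C ∧ ∀ s ∈ Icc (-4 : ℝ) 1, ‖f s‖ ≤ C := by
  obtain ⟨C, hC⟩ := isCompact_Icc.exists_bound_of_continuousOn (f := f) (s := Icc (-4 : ℝ) 1)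
    hf.continuousOn
  exact ⟨max C 0, le_max_right _ _, fun s hs => (hC s hs).trans (le_max_left _ _)⟩

/-- main lemma: mean zero -/
theorem mean_zero {a b : ℝ} (ha : -1 ≤ a) (hab : a ≤ b) (hb : b ≤ 1)
    (ξ : ℕ → ℕ → ℂ) (hξ : ∀ n m, ‖ξ n m‖ ≤ 1) (E ψ : ℝ → ℂ) (hE : Continuous E)
    (hψ : Continuous ψ) (hfin : {s ∈ Icc a b | E s = 1}.Finite)
    (hrec : ∀ ε > 0, ∀ᶠ n in atTop, ∀ m, a < vel n (m + 1) → vel n m ≤ b →
      ‖ξ n (m + 1) - E (vel n (m + 1)) * ξ n m‖ ≤ ε) :
    Tendsto (avg a b (fun n m => ψ (vel n m) * ξ n m)) atTop (𝓝 0) := by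
  obtain ⟨Cψ, hCψ0, hCψ⟩ := bdd_of_cont hψ
  rw [Metric.tendsto_atTop]
  intro δ hδ
  -- choose the regularisation
  obtain ⟨ε, hε, hint⟩ : ∃ ε > 0, |∫ s in a..b, ker E ε s| < δ / (4 * (Cψ + 1)) := by
    have h1 := ker_integral hab hE hfin
    have h2 : ∀ᶠ ε in 𝓝[>] (0 : ℝ), |∫ s in a..b, ker E ε s| < δ / (4 * (Cψ + 1)) := by
      have := (Metric.tendsto_nhds.1 h1) (δ / (4 * (Cψ + 1))) (by positivity)
      filter_upwards [this] with ε hε
      rwa [Real.dist_eq, sub_zero] at hε
    obtain ⟨ε, h3, h4⟩ := (h2.and self_mem_nhdsWithin).exists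
    exact ⟨ε, h4, h3⟩
  have hkc := ker_cont hE hε
  -- the kernel average
  have hker : Tendsto (ravg a b (fun n m => ker E ε (vel n m))) atTop
      (𝓝 ((∫ s in a..b, ker E ε s))) := by
    have := riemann ha hab hb (ker E ε) (fun x => ∫ s in a..x, ker E ε s) hkc (fun x => by
      apply intervalIntegral.integral_hasDerivAt_right
      · exact hkc.intervalIntegrable _ _
      · exact hkc.stronglyMeasurableAtFilter _ _
      · exact hkc.continuousAt)
    simpa using this
  -- the coboundary function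
  set den : ℝ → ℂ := fun s => ((‖E s - 1‖ ^ 2 + ε : ℝ) : ℂ) with hden
  have hden0 : ∀ s, den s ≠ 0 := by
    intro s
    rw [hden]
    simp only
    rw [Complex.ofReal_ne_zero]
    positivity
  have hdenc : Continuous den := by
    rw [hden]; fun_prop
  set φ : ℝ → ℂ := fun s => ψ s * (starRingEnd ℂ (E s) - 1) / den s with hφ
  have hφc : Continuous φ := by
    rw [hφ]
    apply Continuous.div _ hdenc hden0
    exact hψ.mul ((Complex.continuous_conj.comp hE).sub continuous_const)
  have hφE : Continuous (fun s => φ s * E s) := hφc.mul hE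
  obtain ⟨Cφ, hCφ0, hCφ⟩ := bdd_of_cont hφc
  obtain ⟨C2, hC20, hC2⟩ := bdd_of_cont hφE
  have hkey : ∀ s, ψ s = (φ s * E s - φ s) + ψ s * (ker E ε s : ℂ) := by
    intro s
    have h1 : (starRingEnd ℂ (E s) - 1) * (E s - 1) = ((‖E s - 1‖ ^ 2 : ℝ) : ℂ) := by
      have : (starRingEnd ℂ (E s) - 1) = starRingEnd ℂ (E s - 1) := by simp
      rw [this, mul_comm, Complex.mul_conj, Complex.normSq_eq_norm_sq]
    have h2 : φ s * E s - φ s = ψ s * ((‖E s - 1‖ ^ 2 : ℝ) : ℂ) / den s := by
      rw [← h1, hφ]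
      ring
    have h3 : (ker E ε s : ℂ) = (ε : ℂ) / den s := by
      rw [hden]; unfold ker; push_cast; ring
    have h4 : den s = ((‖E s - 1‖ ^ 2 : ℝ) : ℂ) + (ε : ℂ) := by
      rw [hden]; push_cast; ring
    rw [h2, h3, mul_div_assoc, ← mul_add, ← add_div, ← h4, div_self (hden0 s), mul_one]
  have huc : UniformContinuousOn (fun s => φ s * E s) (Icc (-4 : ℝ) 1) :=
    isCompact_Icc.uniformContinuousOn_of_continuous hφE.continuousOn
  rw [Metric.uniformContinuousOn_iff] at huc
  obtain ⟨δ₁, hδ₁, hu⟩ := huc (δ / 32) (by positivity)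
  have e1 := hrec (δ / (32 * (Cφ + 1))) (by positivity)
  have e2 := (Metric.tendsto_nhds.1 tendsto_inv_T) (min δ₁ (min 1 (δ / (32 * (C2 + Cφ + 1)))))
    (by positivity)
  have e3 := (Metric.tendsto_nhds.1 hker) (δ / (4 * (Cψ + 1))) (by positivity)
  have e123 := (e1.and e2).and e3
  rw [eventually_atTop] at e123
  obtain ⟨N, hN⟩ := e123
  refine ⟨N, fun n hn => ?_⟩
  obtain ⟨⟨h1, h2⟩, h3⟩ := hN n hn
  have hT : (0 : ℝ) < (n : ℝ) + 1 := by positivity
  have hτ : (0 : ℝ) < 2 / ((n : ℝ) + 1) := by positivity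
  rw [Real.dist_eq, sub_zero, abs_of_pos hτ, lt_min_iff, lt_min_iff] at h2
  obtain ⟨h2a, h2b, h2c⟩ := h2
  rw [dist_zero_right]
  -- split
  have hsplit : avg a b (fun n m => ψ (vel n m) * ξ n m) n =
      avg a b (fun n m => (φ (vel n m) * E (vel n m) - φ (vel n m)) * ξ n m) n +
      avg a b (fun n m => (ψ (vel n m) * (ker E ε (vel n m) : ℂ)) * ξ n m) n := by
    unfold avg
    rw [← mul_add, ← Finset.sum_add_distrib]
    congr 1
    apply Finset.sum_congr rfl
    intro m _
    rw [← add_mul, ← hkey]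
  -- second part
  have hsecond : ‖avg a b (fun n m => (ψ (vel n m) * (ker E ε (vel n m) : ℂ)) * ξ n m) n‖ ≤
      δ / 2 := by
    refine (norm_avg_le _ _).trans ?_
    have h4 : ravg a b (fun n m => ‖ψ (vel n m) * (ker E ε (vel n m) : ℂ) * ξ n m‖) n ≤
        ravg a b (fun n m => Cψ * ker E ε (vel n m)) n := by
      apply ravg_mono
      intro m hm1 hm2
      rw [norm_mul, norm_mul, Complex.norm_real]
      have hk : 0 ≤ ker E ε (vel n m) := by unfold ker; positivity
      rw [Real.norm_of_nonneg hk]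
      have hin : vel n m ∈ Icc (-4 : ℝ) 1 := ⟨by linarith, by linarith⟩
      calc ‖ψ (vel n m)‖ * ker E ε (vel n m) * ‖ξ n m‖
          ≤ ‖ψ (vel n m)‖ * ker E ε (vel n m) * 1 :=
            mul_le_mul_of_nonneg_left (hξ n m) (by positivity)
        _ ≤ Cψ * ker E ε (vel n m) := by
            rw [mul_one]; exact mul_le_mul_of_nonneg_right (hCψ _ hin) hk
    have h5 : ravg a b (fun n m => Cψ * ker E ε (vel n m)) n =
        Cψ * ravg a b (fun n m => ker E ε (vel n m)) n := by
      unfold ravg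
      rw [← Finset.mul_sum]; ring
    rw [h5] at h4
    refine h4.trans ?_
    rw [Real.dist_eq] at h3
    have h6 : ravg a b (fun n m => ker E ε (vel n m)) n ≤ 2 * (δ / (4 * (Cψ + 1))) := by
      have a1 := abs_lt.1 h3
      have a2 := abs_lt.1 hint
      linarith [a1.2, a2.2]
    calc Cψ * ravg a b (fun n m => ker E ε (vel n m)) n
        ≤ Cψ * (2 * (δ / (4 * (Cψ + 1)))) := mul_le_mul_of_nonneg_left h6 hCψ0
      _ = (Cψ / (Cψ + 1)) * (δ / 2) := by field_simp; ring
      _ ≤ 1 * (δ / 2) := by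
          apply mul_le_mul_of_nonneg_right _ (by positivity)
          rw [div_le_one (by positivity)]; linarith
      _ = δ / 2 := one_mul _
  -- first part
  have hfirst : ‖avg a b (fun n m => (φ (vel n m) * E (vel n m) - φ (vel n m)) * ξ n m) n‖ ≤
      3 * δ / 8 := by
    unfold avg win
    rw [norm_mul, Complex.norm_real, Real.norm_of_nonneg hτ.le]
    rcases Nat.lt_or_ge (ct b n) (ct a n) with hlt | hge
    · obtain ⟨r, hr⟩ : ∃ r, ct a n = r + 1 := ⟨ct a n - 1, by omega⟩
      have hbr : ct b n ≤ r := by omega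
      have hcardr : (2 / ((n : ℝ) + 1)) * ((Finset.Ico (ct b n) r).card : ℝ) ≤
          b - a + 2 / ((n : ℝ) + 1) := by
        refine le_trans ?_ (card_win hab hb n)
        apply mul_le_mul_of_nonneg_left _ hτ.le
        unfold win
        rw [Nat.card_Ico, Nat.card_Ico]
        have : r - ct b n ≤ ct a n - ct b n := by omega
        exact_mod_cast this
      rw [hr, Finset.sum_Ico_succ_top hbr]
      have hterm : ∀ m ∈ Finset.Ico (ct b n) r,
          ‖(φ (vel n m) * E (vel n m) - φ (vel n m)) * ξ n m -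
            (φ (vel n (m + 1)) * ξ n (m + 1) - φ (vel n m) * ξ n m)‖ ≤ δ / 16 := by
        intro m hm
        rw [Finset.mem_Ico] at hm
        have hm1 : vel n m ≤ b := ct_le_iff.1 hm.1
        have hm2 : a < vel n (m + 1) := lt_ct_iff.1 (by omega)
        have hvs := vel_succ n m
        have hin1 : vel n m ∈ Icc (-4 : ℝ) 1 := ⟨by linarith, by linarith⟩
        have hin2 : vel n (m + 1) ∈ Icc (-4 : ℝ) 1 := ⟨by linarith, by linarith⟩
        have eq1 : (φ (vel n m) * E (vel n m) - φ (vel n m)) * ξ n m -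
            (φ (vel n (m + 1)) * ξ n (m + 1) - φ (vel n m) * ξ n m) =
            (φ (vel n m) * E (vel n m) - φ (vel n (m + 1)) * E (vel n (m + 1))) * ξ n m -
            φ (vel n (m + 1)) * (ξ n (m + 1) - E (vel n (m + 1)) * ξ n m) := by ring
        rw [eq1]
        refine (norm_sub_le _ _).trans ?_
        rw [norm_mul, norm_mul]
        have b1 : ‖φ (vel n m) * E (vel n m) - φ (vel n (m + 1)) * E (vel n (m + 1))‖ ≤
            δ / 32 := by
          have := hu _ hin1 _ hin2 (by
            rw [Real.dist_eq, hvs]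
            rw [show vel n m - (vel n m - 2 / ((n : ℝ) + 1)) = 2 / ((n : ℝ) + 1) by ring]
            rwa [abs_of_pos hτ])
          rw [dist_eq_norm] at this
          exact this.le
        have b2 := h1 m hm2 hm1
        have b3 := hCφ _ hin2
        calc ‖φ (vel n m) * E (vel n m) - φ (vel n (m + 1)) * E (vel n (m + 1))‖ * ‖ξ n m‖ +
              ‖φ (vel n (m + 1))‖ * ‖ξ n (m + 1) - E (vel n (m + 1)) * ξ n m‖
            ≤ (δ / 32) * 1 + Cφ * (δ / (32 * (Cφ + 1))) := by
              apply add_le_add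
              · exact mul_le_mul b1 (hξ n m) (norm_nonneg _) (by positivity)
              · exact mul_le_mul b3 b2 (norm_nonneg _) hCφ0
          _ = δ / 32 + (Cφ / (Cφ + 1)) * (δ / 32) := by field_simp
          _ ≤ δ / 32 + 1 * (δ / 32) := by
              apply add_le_add le_rfl
              apply mul_le_mul_of_nonneg_right _ (by positivity)
              rw [div_le_one (by positivity)]; linarith
          _ = δ / 16 := by ring
      have htelsum : ∑ m ∈ Finset.Ico (ct b n) r,
          (φ (vel n (m + 1)) * ξ n (m + 1) - φ (vel n m) * ξ n m) =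
          φ (vel n r) * ξ n r - φ (vel n (ct b n)) * ξ n (ct b n) := by
        have := tel (fun m => φ (vel n m) * ξ n m) hbr
        have h7 : ∑ m ∈ Finset.Ico (ct b n) r,
          (φ (vel n (m + 1)) * ξ n (m + 1) - φ (vel n m) * ξ n m) =
          - ∑ m ∈ Finset.Ico (ct b n) r,
          (φ (vel n m) * ξ n m - φ (vel n (m + 1)) * ξ n (m + 1)) := by
          rw [← Finset.sum_neg_distrib]
          apply Finset.sum_congr rfl
          intro m _; ring
        rw [h7, this]; ring
      have hrin : vel n r ∈ Icc (-4 : ℝ) 1 := by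
        have q1 : a < vel n r := lt_ct_iff.1 (by omega)
        have q2 : vel n r ≤ b := ct_le_iff.1 hbr
        exact ⟨by linarith, by linarith⟩
      have hbin : vel n (ct b n) ∈ Icc (-4 : ℝ) 1 := by
        have q1 : a < vel n (ct b n) := lt_ct_iff.1 hlt
        have q2 : vel n (ct b n) ≤ b := ct_le_iff.1 le_rfl
        exact ⟨by linarith, by linarith⟩
      have hdecomp : ∑ m ∈ Finset.Ico (ct b n) r,
            (φ (vel n m) * E (vel n m) - φ (vel n m)) * ξ n m +
            (φ (vel n r) * E (vel n r) - φ (vel n r)) * ξ n r =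
          ∑ m ∈ Finset.Ico (ct b n) r,
            ((φ (vel n m) * E (vel n m) - φ (vel n m)) * ξ n m -
            (φ (vel n (m + 1)) * ξ n (m + 1) - φ (vel n m) * ξ n m)) +
          (φ (vel n r) * E (vel n r) * ξ n r - φ (vel n (ct b n)) * ξ n (ct b n)) := by
        rw [Finset.sum_sub_distrib, htelsum]; ring
      rw [hdecomp]
      have hA : ‖∑ m ∈ Finset.Ico (ct b n) r,
            ((φ (vel n m) * E (vel n m) - φ (vel n m)) * ξ n m -
            (φ (vel n (m + 1)) * ξ n (m + 1) - φ (vel n m) * ξ n m))‖ ≤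
            ((Finset.Ico (ct b n) r).card : ℝ) * (δ / 16) := by
        refine (norm_sum_le _ _).trans ?_
        refine (Finset.sum_le_sum hterm).trans ?_
        rw [Finset.sum_const, nsmul_eq_mul]
      have hB1 : ‖φ (vel n r) * E (vel n r) * ξ n r‖ ≤ C2 := by
        rw [norm_mul]
        calc ‖φ (vel n r) * E (vel n r)‖ * ‖ξ n r‖ ≤ C2 * 1 :=
            mul_le_mul (hC2 _ hrin) (hξ _ _) (norm_nonneg _) hC20
          _ = C2 := mul_one _
      have hB2 : ‖φ (vel n (ct b n)) * ξ n (ct b n)‖ ≤ Cφ := by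
        rw [norm_mul]
        calc ‖φ (vel n (ct b n))‖ * ‖ξ n (ct b n)‖ ≤ Cφ * 1 :=
            mul_le_mul (hCφ _ hbin) (hξ _ _) (norm_nonneg _) hCφ0
          _ = Cφ := mul_one _
      have hC : ‖φ (vel n r) * E (vel n r) * ξ n r - φ (vel n (ct b n)) * ξ n (ct b n)‖ ≤
          C2 + Cφ := (norm_sub_le _ _).trans (add_le_add hB1 hB2)
      refine (mul_le_mul_of_nonneg_left ((norm_add_le _ _).trans (add_le_add hA hC)) hτ.le).trans ?_
      have g1 : 2 / ((n : ℝ) + 1) * (((Finset.Ico (ct b n) r).card : ℝ) * (δ / 16)) ≤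
          3 * (δ / 16) := by
        rw [← mul_assoc]
        apply mul_le_mul_of_nonneg_right _ (by positivity)
        linarith
      have g2 : 2 / ((n : ℝ) + 1) * (C2 + Cφ) ≤ δ / 32 := by
        calc 2 / ((n : ℝ) + 1) * (C2 + Cφ) ≤ (δ / (32 * (C2 + Cφ + 1))) * (C2 + Cφ) :=
              mul_le_mul_of_nonneg_right h2c.le (by positivity)
          _ = (δ / 32) * ((C2 + Cφ) / (C2 + Cφ + 1)) := by field_simp
          _ ≤ (δ / 32) * 1 := by
              apply mul_le_mul_of_nonneg_left _ (by positivity)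
              rw [div_le_one (by positivity)]; linarith
          _ = δ / 32 := mul_one _
      rw [mul_add]
      linarith
    · rw [Finset.Ico_eq_empty_of_le hge]
      simp
      positivity
  rw [hsplit]
  refine lt_of_le_of_lt (norm_add_le _ _) ?_
  linarith
end Q261.FK
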